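import Pool.Agent.Helper848.Domino

/-!
Domino tilings as fixed point free adjacency involutions.
-/

set_option autoImplicit false

namespace Pool.Agent.W233

open Pool.Agent.Helper848

lemma adj_symm {p q : ℤ × ℤ} (h : Adj p q) : Adj q p := by
  unfold Adj at *
  rcases h with ⟨h1, h2⟩ | ⟨h1, h2⟩
  · exact Or.inl ⟨h1.symm, h2.symm⟩
  · exact Or.inr ⟨h1.symm, h2.symm⟩

lemma adj_ne {p q : ℤ × ℤ} (h : Adj p q) : p ≠ q := by
  rintro rfl
  unfold Adj at h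
  omega

/-- the tiling of an involution -/
noncomputable def tilOf {R : Finset (ℤ × ℤ)} (f : R → R) : Finset (Finset (ℤ × ℤ)) :=
  (Finset.univ : Finset R).image fun x : R => {(x : ℤ × ℤ), (f x : ℤ × ℤ)}

lemma tilOf_isTiling {R : Finset (ℤ × ℤ)} (f : R → R)
    (hf : ∀ x : R, f (f x) = x ∧ Adj (x : ℤ × ℤ) (f x)) : IsTiling R (tilOf f) := by
  refine ⟨?_, ?_⟩
  · intro D hD
    simp only [tilOf, Finset.mem_image, Finset.mem_univ, true_and] at hD
    obtain ⟨x, rfl⟩ := hD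
    refine ⟨?_, x, f x, (hf x).2, rfl⟩
    intro y hy
    simp only [Finset.mem_insert, Finset.mem_singleton] at hy
    rcases hy with rfl | rfl
    · exact x.2
    · exact (f x).2
  · intro c hc
    refine ⟨{c, (f ⟨c, hc⟩ : ℤ × ℤ)}, ⟨?_, by simp⟩, ?_⟩
    · simp only [tilOf, Finset.mem_image, Finset.mem_univ, true_and]
      exact ⟨⟨c, hc⟩, rfl⟩
    · rintro D ⟨hD, hcD⟩
      simp only [tilOf, Finset.mem_image, Finset.mem_univ, true_and] at hD
      obtain ⟨x, rfl⟩ := hD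
      simp only [Finset.mem_insert, Finset.mem_singleton] at hcD
      rcases hcD with h | h
      · have : x = ⟨c, hc⟩ := Subtype.ext h.symm
        rw [this]
      · have h2 : f x = ⟨c, hc⟩ := Subtype.ext h.symm
        have h3 : f ⟨c, hc⟩ = x := by rw [← h2]; exact (hf x).1
        rw [h3, h2]
        exact Finset.pair_comm _ _

lemma tilOf_inj {R : Finset (ℤ × ℤ)} (f g : R → R)
    (hf : ∀ x : R, f (f x) = x ∧ Adj (x : ℤ × ℤ) (f x))
    (hg : ∀ x : R, g (g x) = x ∧ Adj (x : ℤ × ℤ) (g x)) (h : tilOf f = tilOf g) : f = g := by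
  funext x
  have h1 : ({(x : ℤ × ℤ), (f x : ℤ × ℤ)} : Finset (ℤ × ℤ)) ∈ tilOf f := by
    simp only [tilOf, Finset.mem_image, Finset.mem_univ, true_and]
    exact ⟨x, rfl⟩
  have h2 : ({(x : ℤ × ℤ), (g x : ℤ × ℤ)} : Finset (ℤ × ℤ)) ∈ tilOf f := by
    rw [h]
    simp only [tilOf, Finset.mem_image, Finset.mem_univ, true_and]
    exact ⟨x, rfl⟩
  obtain ⟨D, -, hD⟩ := (tilOf_isTiling f hf).2 x x.2
  have e1 := hD _ ⟨h1, by simp⟩
  have e2 := hD _ ⟨h2, by simp⟩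
  have e3 : ({(x : ℤ × ℤ), (f x : ℤ × ℤ)} : Finset (ℤ × ℤ)) = {(x : ℤ × ℤ), (g x : ℤ × ℤ)} :=
    e1.trans e2.symm
  have h3 : (f x : ℤ × ℤ) ∈ ({(x : ℤ × ℤ), (g x : ℤ × ℤ)} : Finset (ℤ × ℤ)) := by
    rw [← e3]; simp
  simp only [Finset.mem_insert, Finset.mem_singleton] at h3
  rcases h3 with h3 | h3
  · exact absurd h3.symm (adj_ne (hf x).2)
  · exact Subtype.ext h3

lemma exists_of_tiling {R : Finset (ℤ × ℤ)} {T : Finset (Finset (ℤ × ℤ))} (hT : IsTiling R T) :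
    ∃ f : R → R, (∀ x : R, f (f x) = x ∧ Adj (x : ℤ × ℤ) (f x)) ∧ tilOf f = T := by
  have h1 : ∀ x : R, ∃ y : R, Adj (x : ℤ × ℤ) y ∧ ({(x : ℤ × ℤ), (y : ℤ × ℤ)} : Finset (ℤ × ℤ)) ∈ T := by
    intro x
    obtain ⟨D, ⟨hD, hxD⟩, -⟩ := hT.2 x x.2
    obtain ⟨hDR, p, q, hpq, hDe⟩ := hT.1 D hD
    have hp : p ∈ R := hDR (by rw [hDe]; simp)
    have hq : q ∈ R := hDR (by rw [hDe]; simp)
    have hx2 := hxD
    rw [hDe] at hx2
    simp only [Finset.mem_insert, Finset.mem_singleton] at hx2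
    rcases hx2 with h | h
    · refine ⟨⟨q, hq⟩, ?_, ?_⟩
      · rw [h]; exact hpq
      · rw [h]
        show ({p, q} : Finset (ℤ × ℤ)) ∈ T
        rw [← hDe]; exact hD
    · refine ⟨⟨p, hp⟩, ?_, ?_⟩
      · rw [h]; exact adj_symm hpq
      · rw [h]
        show ({q, p} : Finset (ℤ × ℤ)) ∈ T
        rw [Finset.pair_comm, ← hDe]; exact hD
  choose f hf1 hf2 using h1
  have hinv : ∀ x, f (f x) = x := by
    intro x
    obtain ⟨D, -, hD⟩ := hT.2 (f x) (f x).2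
    have e1 := hD _ ⟨hf2 x, by simp⟩
    have e2 := hD _ ⟨hf2 (f x), by simp⟩
    have h3 : (x : ℤ × ℤ) ∈ ({(f x : ℤ × ℤ), (f (f x) : ℤ × ℤ)} : Finset (ℤ × ℤ)) := by
      rw [e2, ← e1]; simp
    simp only [Finset.mem_insert, Finset.mem_singleton] at h3
    rcases h3 with h3 | h3
    · exact absurd h3 (adj_ne (hf1 x))
    · exact (Subtype.ext h3).symm
  refine ⟨f, fun x => ⟨hinv x, hf1 x⟩, ?_⟩
  ext D
  simp only [tilOf, Finset.mem_image, Finset.mem_univ, true_and]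
  constructor
  · rintro ⟨x, rfl⟩
    exact hf2 x
  · intro hD
    obtain ⟨hDR, p, q, hpq, hDe⟩ := hT.1 D hD
    have hp : p ∈ R := hDR (by rw [hDe]; simp)
    refine ⟨⟨p, hp⟩, ?_⟩
    obtain ⟨D', -, hD'⟩ := hT.2 p hp
    have e1 := hD' _ ⟨hD, by rw [hDe]; simp⟩
    have e2 := hD' _ ⟨hf2 ⟨p, hp⟩, by simp⟩
    rw [e1, ← e2]

/-- domino tilings = adjacency involutions, for any model `α` of the region -/
theorem card_inv_eq_numTilings (R : Finset (ℤ × ℤ)) {α : Type} (e : α ≃ R) (A : α → α → Prop)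
    (hA : ∀ a b, A a b ↔ Adj (e a : ℤ × ℤ) (e b)) :
    Nat.card {f : α → α // ∀ x, f (f x) = x ∧ A x (f x)} = numTilings R := by
  have h1 : Nat.card {f : R → R // ∀ x : R, f (f x) = x ∧ Adj (x : ℤ × ℤ) (f x)} =
      numTilings R := by
    unfold numTilings
    rw [← Nat.card_coe_set_eq]
    refine Nat.card_congr (Equiv.ofBijective
      (fun f => ⟨tilOf f.1, tilOf_isTiling f.1 f.2⟩) ⟨?_, ?_⟩)
    · rintro ⟨f, hf⟩ ⟨g, hg⟩ h
      exact Subtype.ext (tilOf_inj f g hf hg (Subtype.ext_iff.mp h))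
    · rintro ⟨T, hT⟩
      obtain ⟨f, hf, hfT⟩ := exists_of_tiling hT
      exact ⟨⟨f, hf⟩, Subtype.ext hfT⟩
  rw [← h1]
  refine Nat.card_congr ((Equiv.arrowCongr e e).subtypeEquiv ?_)
  intro f
  constructor
  · intro h x
    obtain ⟨y, rfl⟩ := e.surjective x
    simp only [Equiv.arrowCongr_apply, Function.comp_apply, Equiv.symm_apply_apply, (h y).1,
      true_and]
    exact (hA _ _).mp (h y).2
  · intro h y
    have := h (e y)
    simp only [Equiv.arrowCongr_apply, Function.comp_apply, Equiv.symm_apply_apply,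
      EmbeddingLike.apply_eq_iff_eq] at this
    exact ⟨this.1, (hA _ _).mpr this.2⟩

end Pool.Agent.W233
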