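import Pool.Agent.W233.SG3

set_option autoImplicit false

/-! The order relation of the 28-element poset, and its sign-gradedness. -/

namespace Pool.Agent.W233.SG

open Polynomial

/-- The partial order. -/
def lep (a b : Fin 28) : Prop := a = b ∨ (prdk big b).testBit a = true

instance (a b : Fin 28) : Decidable (lep a b) := inferInstanceAs (Decidable (_ ∨ _))

theorem prd_lt : ∀ b : Fin 28, prdk big b < 2 ^ 28 := by decide +kernel

theorem prd_bound (b : Fin 28) (y : ℕ) (h : (prdk big b).testBit y = true) : y < 28 := by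
  by_contra hy
  have h1 : prdk big b < 2 ^ y := lt_of_lt_of_le (prd_lt b) (Nat.pow_le_pow_right (by norm_num) (by omega))
  rw [Nat.testBit_lt_two_pow h1] at h
  exact Bool.noConfusion h

theorem prd_irrefl : ∀ b : Fin 28, (prdk big b).testBit b = false := by decide +kernel

theorem lep_antisymm : ∀ a b : Fin 28, lep a b → lep b a → a = b := by decide +kernel

theorem prd_trans : ∀ b c : Fin 28, (prdk big c).testBit b = true →
    Nat.land (prdk big b) (prdk big c) = prdk big b := by decide +kernel

theorem lep_trans (a b c : Fin 28) (h1 : lep a b) (h2 : lep b c) : lep a c := by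
  rcases h1 with h1 | h1
  · rw [h1]; exact h2
  · rcases h2 with h2 | h2
    · rw [← h2]; exact Or.inr h1
    · right
      have h3 := prd_trans b c h2
      have h4 : (Nat.land (prdk big b) (prdk big c)).testBit a = true := by rw [h3]; exact h1
      have h5 := Nat.testBit_land (prdk big b) (prdk big c) (a : ℕ)
      change (Nat.land (prdk big b) (prdk big c)).testBit a = _ at h5
      rw [h5, Bool.and_eq_true] at h4
      exact h4.2

theorem cover_sign : ∀ a b : Fin 28, lep a b → a ≠ b →
    (∀ z, lep a z → lep z b → z = a ∨ z = b) →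
    (a < 15 ∧ 15 ≤ b) ∨ (15 ≤ a ∧ b < 15) := by decide +kernel

theorem min_low : ∀ a : Fin 28, (∀ y, lep y a → y = a) → a < 15 := by decide +kernel

theorem max_high : ∀ a : Fin 28, (∀ y, lep a y → y = a) → 15 ≤ a := by decide +kernel

/-- The rank function. -/
def rho (a : Fin 28) : ℤ := if a < 15 then 0 else 1

theorem sign_graded (k : ℕ) (c : Fin (k + 1) → Fin 28)
    (h0 : ∀ y, lep y (c 0) → y = c 0)
    (h1 : ∀ y, lep (c (Fin.last k)) y → y = c (Fin.last k))
    (h2 : ∀ i : Fin k, lep (c i.castSucc) (c i.succ) ∧ c i.castSucc ≠ c i.succ ∧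
        ∀ z, lep (c i.castSucc) z → lep z (c i.succ) → z = c i.castSucc ∨ z = c i.succ) :
    ∑ i : Fin k, (if c i.castSucc < c i.succ then (1 : ℤ) else -1) = 1 := by
  have hs : ∀ i : Fin k, (if c i.castSucc < c i.succ then (1 : ℤ) else -1) =
      rho (c i.succ) - rho (c i.castSucc) := by
    intro i
    obtain ⟨ha, hb, hc⟩ := h2 i
    rcases cover_sign _ _ ha hb hc with ⟨h3, h4⟩ | ⟨h3, h4⟩
    · have h5 : c i.castSucc < c i.succ := lt_of_lt_of_le h3 h4
      have h6 : ¬ c i.succ < 15 := not_lt.mpr h4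
      simp [rho, h3, h5, h6]
    · have h5 : ¬ c i.castSucc < c i.succ := not_lt.mpr (h4.le.trans h3)
      have h6 : ¬ c i.castSucc < 15 := not_lt.mpr h3
      simp [rho, h4, h5, h6]
  rw [Finset.sum_congr rfl fun i _ => hs i, Finset.sum_sub_distrib]
  have e1 := Fin.sum_univ_castSucc fun i : Fin (k + 1) => rho (c i)
  have e2 := Fin.sum_univ_succ fun i : Fin (k + 1) => rho (c i)
  have e3 : rho (c 0) = 0 := by simp [rho, min_low _ h0]
  have e4 : rho (c (Fin.last k)) = 1 := by simp [rho, max_high _ h1]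
  rw [e3] at e2
  rw [e4] at e1
  linarith

/-- Value at `x`. -/
noncomputable def j0 (x : ℝ) : List ℕ → ℝ
  | [] => 0
  | a :: l => a + x * j0 x l

/-- Derivative at `x`. -/
noncomputable def j1 (x : ℝ) : List ℕ → ℝ
  | [] => 0
  | _ :: l => j0 x l + x * j1 x l

/-- Second derivative at `x`. -/
noncomputable def j2 (x : ℝ) : List ℕ → ℝ
  | [] => 0
  | _ :: l => 2 * j1 x l + x * j2 x l

theorem eval_toPoly (x : ℝ) : ∀ l : List ℕ, (toPoly l).eval x = j0 x l
  | [] => by simp [toPoly, j0]
  | a :: l => by simp [toPoly, j0, eval_toPoly x l]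

theorem eval_d1 (x : ℝ) : ∀ l : List ℕ, (derivative (toPoly l)).eval x = j1 x l
  | [] => by simp [toPoly, j1]
  | a :: l => by simp [toPoly, j1, eval_toPoly x l, eval_d1 x l]

theorem eval_d2 (x : ℝ) : ∀ l : List ℕ, (derivative (derivative (toPoly l))).eval x = j2 x l
  | [] => by simp [toPoly, j2]
  | a :: l => by
    simp [toPoly, j2, eval_d1 x l, eval_d2 x l]
    ring

theorem values : j1 (-7 / 360) coef ^ 2 < j0 (-7 / 360) coef * j2 (-7 / 360) coef := by
  simp only [coef, j0, j1, j2]
  norm_num

end Pool.Agent.W233.SG
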