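import Pool.Agent.W233.Eppa2

/-!
Three-graphs: the extension property.
-/

set_option autoImplicit false
open Classical

namespace Pool.Agent.W233.EPPA

lemma io_congr {α β : Type} (H : Finset (Finset α)) (H' : Finset (Finset β)) (e : Finset α)
    (e' : Finset β) (h : e ∈ H ↔ e' ∈ H') : io H e = io H' e' := by
  unfold io
  by_cases he : e ∈ H
  · rw [if_pos he, if_pos (h.mp he)]
  · rw [if_neg he, if_neg (fun h1 => he (h.mpr h1))]

/-- an injective map on a finite subset extends to a permutation -/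
lemma exists_perm {n : ℕ} (S : Finset (Fin n)) (p : Fin n → Fin n)
    (hp : Set.InjOn p (S : Set (Fin n))) : ∃ π : Equiv.Perm (Fin n), ∀ x ∈ S, π x = p x := by
  obtain ⟨g, hg⟩ := Finset.exists_equiv_extend_of_card_eq (α := Fin n) (β := Fin n)
    (t := Finset.univ) (by simp) (s := S) (f := p) (Finset.subset_univ _) hp
  refine ⟨g.trans ((Equiv.subtypeUnivEquiv (fun x => Finset.mem_univ x))), ?_⟩
  intro x hx
  exact hg x hx

lemma exists_swap {n : ℕ} (c : Fin n → Bool) (S : Finset (Fin n)) (p : Fin n → Fin n)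
    (hc : ∀ x ∈ S, ∀ y ∈ S, c x = c y ↔ c (p x) = c (p y)) :
    ∃ s : Bool, ∀ x ∈ S, c (p x) = xor (c x) s := by
  rcases Finset.eq_empty_or_nonempty S with rfl | ⟨x0, hx0⟩
  · exact ⟨false, by simp⟩
  · refine ⟨xor (c x0) (c (p x0)), ?_⟩
    intro x hx
    have := hc x hx x0 hx0
    revert this
    cases c x <;> cases c x0 <;> cases c (p x) <;> cases c (p x0) <;> simp

/-- a function with vanishing mixed differences splits -/
lemma exists_split {α : Type} (c : α → Bool) (S : Finset α) (G : α → α → ZMod 2)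
    (hG : ∀ i i' j j', i ∈ S → i' ∈ S → j ∈ S → j' ∈ S → c i = false → c i' = false →
      c j = true → c j' = true → G i j + G i' j + G i j' + G i' j' = 0) :
    ∃ a : α → ZMod 2, ∀ i j, i ∈ S → j ∈ S → c i = false → c j = true → G i j = a i + a j := by
  by_cases h1 : ∃ i0 ∈ S, c i0 = false
  swap
  · exact ⟨fun _ => 0, fun i j hi _ hci _ => absurd ⟨i, hi, hci⟩ h1⟩
  by_cases h2 : ∃ j0 ∈ S, c j0 = true
  swap
  · exact ⟨fun _ => 0, fun i j _ hj _ hcj => absurd ⟨j, hj, hcj⟩ h2⟩
  obtain ⟨i0, hi0, ci0⟩ := h1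
  obtain ⟨j0, hj0, cj0⟩ := h2
  refine ⟨fun x => if c x = false then G x j0 else G i0 x + G i0 j0, ?_⟩
  intro i j hi hj ci cj
  have := hG i i0 j j0 hi hi0 hj hj0 ci ci0 cj cj0
  simp only [ci, cj, if_true]
  rw [if_neg (by decide)]
  linear_combination this - z2 (G i0 j) - z2 (G i j0) - z2 (G i0 j0)

lemma emb_h {n : ℕ} (c : Fin n → Bool) (E : Fin n → Fin n → ZMod 2)
    (hE : ∀ a b, E a b = E b a) (a a' b b' : Fin n) (ca : c a = c a') (cb : c b = c b')
    (cab : c a ≠ c b) :
    hV (emb c E a) (emb c E a') (emb c E b) (emb c E b') = E a b + E a' b + E a b' + E a' b' := by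
  have h1 := val_add c E hE a b cab
  have h2 := val_add c E hE a b' (by rw [← cb]; exact cab)
  have h3 := val_add c E hE a' b (by rw [← ca]; exact cab)
  have h4 := val_add c E hE a' b' (by rw [← ca, ← cb]; exact cab)
  show (val c E a b + val c E a b') + (val c E a' b + val c E a' b') +
    (val c E b a + val c E b a') + (val c E b' a + val c E b' a') = _
  rw [← h1, ← h2, ← h3, ← h4]
  ring

/-- the extension of a partial automorphism -/
lemma exists_aut {n : ℕ} (c : Fin n → Bool) (E : Fin n → Fin n → ZMod 2)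
    (hE : ∀ a b, E a b = E b a) (S : Finset (Fin n)) (p : Fin n → Fin n)
    (hp : Set.InjOn p (S : Set (Fin n)))
    (hc : ∀ x ∈ S, ∀ y ∈ S, c x = c y ↔ c (p x) = c (p y))
    (hh : ∀ i i' j j', i ∈ S → i' ∈ S → j ∈ S → j' ∈ S → c i = false → c i' = false →
      c j = true → c j' = true →
      E (p i) (p j) + E (p i') (p j) + E (p i) (p j') + E (p i') (p j') =
        E i j + E i' j + E i j' + E i' j') :
    ∃ (π : Equiv.Perm (Fin n)) (s : Bool) (F : Fin n → Fin n → ZMod 2),
      ∀ x ∈ S, aut π s F (emb c E x) = emb c E (p x) := by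
  obtain ⟨π, hπ⟩ := exists_perm S p hp
  obtain ⟨s, hs⟩ := exists_swap c S p hc
  obtain ⟨a, ha⟩ := exists_split c S (fun i j => E (p i) (p j) + E i j) (by
    intro i i' j j' hi hi' hj hj' ci ci' cj cj'
    have := hh i i' j j' hi hi' hj hj' ci ci' cj cj'
    linear_combination this + z2 (E i j) + z2 (E i' j) + z2 (E i j') + z2 (E i' j'))
  set v := val c E with hv
  let F : Fin n → Fin n → ZMod 2 := fun i j =>
    if i ∈ S ∧ c i = false then v (p i) (π j) + v i j + a i
    else if j ∈ S ∧ c j = true then v (p j) (π i) + v j i + a j else 0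
  have hF : ∀ x ∈ S, ∀ j, ph F (c x) x j = v (p x) (π j) + v x j + a x := by
    intro x hx j
    unfold ph
    cases hcx : c x
    · simp only [if_true, F]
      rw [if_pos ⟨hx, hcx⟩]
    · rw [if_neg (by decide)]
      simp only [F]
      by_cases hj : j ∈ S ∧ c j = false
      · rw [if_pos hj]
        have e1 := ha j x hj.1 hx hj.2 hcx
        have hne : c j ≠ c x := by rw [hj.2, hcx]; decide
        have hne2 : c (p j) ≠ c (p x) := fun h => hne ((hc j hj.1 x hx).mpr h)
        have e2 := val_add c E hE j x hne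
        have e3 := val_add c E hE (p j) (p x) hne2
        rw [← hv] at e2 e3
        rw [← e2, ← e3] at e1
        rw [hπ x hx, hπ j hj.1]
        linear_combination e1 - z2 (v (p x) (p j)) - z2 (v x j) + z2 (a j)
      · rw [if_neg hj, if_pos ⟨hx, hcx⟩]
  refine ⟨π, s, F, ?_⟩
  intro x hx
  refine Prod.ext (hπ x hx) (Prod.ext (hs x hx).symm (Subtype.ext ?_))
  funext k k'
  show (v x (π.symm k) + v x (π.symm k')) + ph F (c x) x (π.symm k) + ph F (c x) x (π.symm k') =
    v (p x) k + v (p x) k'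
  rw [hF x hx, hF x hx]
  simp only [Equiv.apply_symm_apply]
  linear_combination z2 (v x (π.symm k)) + z2 (v x (π.symm k')) + z2 (a x)

end Pool.Agent.W233.EPPA
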