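import Pool.Agent.W217.BE.Stm2

set_option autoImplicit false

namespace Pool.Agent.W233.BEG2TRUE

open Pool.Agent.W217.BE
open Polynomial

section Alg

variable {A κ : Type} [CommRing A] [Field κ] {k : ℕ}

theorem fse_C (a : A) : MvPolynomial.finSuccEquiv A k (MvPolynomial.C a) =
    Polynomial.C (MvPolynomial.C a) := by
  simp [MvPolynomial.finSuccEquiv_apply]

theorem chiJ_eq (χ : A →+* κ) (J : Fin (k + 1) → Bool) (hJ : J 0 = true)
    (s : MvPolynomial (Fin (k + 1)) A) :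
    chiJ χ J s = ((chiJ χ (fun j => J (Fin.succ j))).comp (Polynomial.evalRingHom 0))
      (MvPolynomial.finSuccEquiv A k s) := by
  have h : chiJ χ J = ((chiJ χ (fun j => J (Fin.succ j))).comp (Polynomial.evalRingHom 0)).comp
      (MvPolynomial.finSuccEquiv A k :
        MvPolynomial (Fin (k + 1)) A →+* (MvPolynomial (Fin k) A)[X]) := by
    apply MvPolynomial.ringHom_ext
    · intro a
      simp [chiJ, fse_C]
    · intro j
      refine Fin.cases ?_ (fun j => ?_) j
      · simp [chiJ, hJ, MvPolynomial.finSuccEquiv_X_zero]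
      · simp [chiJ, MvPolynomial.finSuccEquiv_X_succ]
  rw [h]
  rfl

theorem fse_monomial (α : Fin (k + 1) →₀ ℕ) (h0 : α 0 = 0) (a : A) :
    MvPolynomial.finSuccEquiv A k (MvPolynomial.monomial α a) =
      Polynomial.C (MvPolynomial.monomial (Finsupp.tail α) a) := by
  classical
  ext i m
  rw [MvPolynomial.finSuccEquiv_coeff_coeff, Polynomial.coeff_C, MvPolynomial.coeff_monomial]
  have hα : α = Finsupp.cons 0 (Finsupp.tail α) := by
    conv_lhs => rw [← Finsupp.cons_tail α, h0]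
  by_cases hi : i = 0
  · subst hi
    rw [if_pos rfl, MvPolynomial.coeff_monomial]
    by_cases hm : Finsupp.tail α = m
    · rw [if_pos hm, if_pos (by rw [← hm]; exact hα)]
    · rw [if_neg hm, if_neg]
      intro h
      apply hm
      rw [h, Finsupp.tail_cons]
  · rw [if_neg hi, if_neg, MvPolynomial.coeff_zero]
    intro h
    apply hi
    rw [h] at h0
    simpa using h0

theorem single_cons (t : ℤ) (b : Fin k → ℤ) (j : Fin k) :
    (Fin.cons t b : Fin (k + 1) → ℤ) + Pi.single j.succ 1 =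
      (Fin.cons t (b + Pi.single j 1) : Fin (k + 1) → ℤ) := by
  funext i
  refine Fin.cases ?_ (fun i => ?_) i
  · simp
  · by_cases h : i = j
    · subst h; simp
    · have h' : i.succ ≠ j.succ := fun h2 => h (Fin.succ_injective _ h2)
      simp [Pi.single_apply, h, h']

theorem single_cons_zero (t : ℤ) (b : Fin k → ℤ) :
    (Fin.cons t b : Fin (k + 1) → ℤ) + Pi.single 0 1 =
      (Fin.cons (t + 1) b : Fin (k + 1) → ℤ) := by
  funext i
  refine Fin.cases ?_ (fun i => ?_) i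
  · simp
  · simp [Pi.single_apply]

end Alg

section Mod

variable {A : Type} [CommRing A] {k : ℕ} {M : Type} [AddCommGroup M] [Module A M]
  [Module (MvPolynomial (Fin (k + 1)) A) M]
  [Module (MvPolynomial (Fin k) A)[X] M] [Module (MvPolynomial (Fin k) A) M]
  [IsScalarTower (MvPolynomial (Fin k) A) (MvPolynomial (Fin k) A)[X] M]
  [IsScalarTower A (MvPolynomial (Fin k) A) M]

theorem smul_C (q : MvPolynomial (Fin k) A) (x : M) :
    q • x = (Polynomial.C q : (MvPolynomial (Fin k) A)[X]) • x := by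
  rw [← algebraMap_smul (MvPolynomial (Fin k) A)[X] q x]
  rfl

theorem smul_mvC (a : A) (x : M) : (MvPolynomial.C a : MvPolynomial (Fin k) A) • x = a • x := by
  rw [← algebraMap_smul (MvPolynomial (Fin k) A) a x]
  rfl

variable (hs : ∀ (s : MvPolynomial (Fin (k + 1)) A) (x : M),
    (MvPolynomial.finSuccEquiv A k s) • x = s • x)

include hs

theorem smul_X (x : M) : (X : (MvPolynomial (Fin k) A)[X]) • x =
    (MvPolynomial.X 0 : MvPolynomial (Fin (k + 1)) A) • x := by
  rw [← hs, MvPolynomial.finSuccEquiv_X_zero]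

theorem smul_mvX (j : Fin k) (x : M) : (MvPolynomial.X j : MvPolynomial (Fin k) A) • x =
    (MvPolynomial.X j.succ : MvPolynomial (Fin (k + 1)) A) • x := by
  rw [← hs, MvPolynomial.finSuccEquiv_X_succ, smul_C]

variable (ℳ : (Fin (k + 1) → ℤ) → Submodule A M)
  (hX : ∀ j a x, x ∈ ℳ a →
      (MvPolynomial.X j : MvPolynomial (Fin (k + 1)) A) • x ∈ ℳ (a + Pi.single j 1))

include hX

theorem slab_X (j : Fin k) (t : ℤ) (x : M) (hx : x ∈ ⨆ b : Fin k → ℤ, ℳ (Fin.cons t b)) :
    (MvPolynomial.X j : MvPolynomial (Fin k) A) • x ∈ ⨆ b : Fin k → ℤ, ℳ (Fin.cons t b) := by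
  refine Submodule.iSup_induction (fun b : Fin k → ℤ => ℳ (Fin.cons t b))
    (motive := fun x => (MvPolynomial.X j : MvPolynomial (Fin k) A) • x ∈
      ⨆ b : Fin k → ℤ, ℳ (Fin.cons t b)) hx ?_ ?_ ?_
  · intro b x hx
    rw [smul_mvX hs]
    have := hX j.succ _ x hx
    rw [single_cons] at this
    exact Submodule.mem_iSup_of_mem _ this
  · rw [smul_zero]; exact Submodule.zero_mem _
  · intro x y hx hy
    rw [smul_add]; exact Submodule.add_mem _ hx hy

theorem slab_smul (q : MvPolynomial (Fin k) A) (t : ℤ) :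
    ∀ x : M, x ∈ ⨆ b : Fin k → ℤ, ℳ (Fin.cons t b) → q • x ∈ ⨆ b : Fin k → ℤ, ℳ (Fin.cons t b) := by
  induction q using MvPolynomial.induction_on with
  | C a => intro x hx; rw [smul_mvC]; exact Submodule.smul_mem _ _ hx
  | add p q hp hq => intro x hx; rw [add_smul]; exact Submodule.add_mem _ (hp x hx) (hq x hx)
  | mul_X p j hp => intro x hx; rw [mul_smul]; exact hp _ (slab_X hs ℳ hX j t x hx)

omit hX hs in
/-- the slabs as submodules over the smaller polynomial ring -/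
def NC (hs : ∀ (s : MvPolynomial (Fin (k + 1)) A) (x : M),
    (MvPolynomial.finSuccEquiv A k s) • x = s • x)
    (ℳ : (Fin (k + 1) → ℤ) → Submodule A M)
    (hX : ∀ j a x, x ∈ ℳ a →
      (MvPolynomial.X j : MvPolynomial (Fin (k + 1)) A) • x ∈ ℳ (a + Pi.single j 1))
    (t : ℤ) : Submodule (MvPolynomial (Fin k) A) M where
  carrier := {x | x ∈ ⨆ b : Fin k → ℤ, ℳ (Fin.cons t b)}
  add_mem' := fun hx hy => (⨆ b : Fin k → ℤ, ℳ (Fin.cons t b)).add_mem hx hy
  zero_mem' := (⨆ b : Fin k → ℤ, ℳ (Fin.cons t b)).zero_mem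
  smul_mem' := fun q x hx => slab_smul hs ℳ hX q t x hx

theorem mem_NC (t : ℤ) (x : M) :
    x ∈ NC hs ℳ hX t ↔ x ∈ ⨆ b : Fin k → ℤ, ℳ (Fin.cons t b) := Iff.rfl

theorem NC_shift (t : ℤ) (x : M) (hx : x ∈ NC hs ℳ hX t) :
    (X : (MvPolynomial (Fin k) A)[X]) • x ∈ NC hs ℳ hX (t + 1) := by
  rw [mem_NC] at hx ⊢
  refine Submodule.iSup_induction (fun b : Fin k → ℤ => ℳ (Fin.cons t b))
    (motive := fun x => (X : (MvPolynomial (Fin k) A)[X]) • x ∈
      ⨆ b : Fin k → ℤ, ℳ (Fin.cons (t + 1) b)) hx ?_ ?_ ?_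
  · intro b x hx
    rw [smul_X hs]
    have := hX 0 _ x hx
    rw [single_cons_zero] at this
    exact Submodule.mem_iSup_of_mem _ this
  · rw [smul_zero]; exact Submodule.zero_mem _
  · intro x y hx hy
    rw [smul_add]; exact Submodule.add_mem _ hx hy

end Mod

/-- transport of internal sums -/
theorem internal_transport {A I M M' : Type} [CommRing A] [DecidableEq I] [AddCommGroup M]
    [Module A M] [AddCommGroup M'] [Module A M'] (f : M ≃ₗ[A] M') (D : I → Submodule A M)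
    (D' : I → Submodule A M') (h : ∀ i x, f x ∈ D' i ↔ x ∈ D i)
    (hD : DirectSum.IsInternal D) : DirectSum.IsInternal D' := by
  have e0 : ∀ i, D' i = (D i).map (f : M →ₗ[A] M') := by
    intro i
    ext y
    rw [Submodule.mem_map]
    constructor
    · intro hy
      refine ⟨f.symm y, ?_, by simp⟩
      rw [← h, f.apply_symm_apply]; exact hy
    · rintro ⟨x, hx, rfl⟩
      exact (h i x).2 hx
  have e : D' = (Submodule.orderIsoMapComap f) ∘ D := by
    funext i
    rw [e0 i]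
    rfl
  rw [DirectSum.isInternal_submodule_iff_iSupIndep_and_iSup_eq_top] at hD ⊢
  obtain ⟨h1, h2⟩ := hD
  constructor
  · rw [e]; exact h1.map_orderIso _
  · rw [e]
    have : (⨆ i, ((Submodule.orderIsoMapComap f) ∘ D) i) = (Submodule.orderIsoMapComap f) (⨆ i, D i) := by
      rw [OrderIso.map_iSup]; rfl
    rw [this, h2, OrderIso.map_top]

section Core

variable {A κ : Type} [CommRing A] [Field κ] {k : ℕ} {M : Type}
  [AddCommGroup M] [Module A M] [Module (MvPolynomial (Fin (k + 1)) A) M]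
  [Module (MvPolynomial (Fin k) A)[X] M] [Module (MvPolynomial (Fin k) A) M]
  [IsScalarTower (MvPolynomial (Fin k) A) (MvPolynomial (Fin k) A)[X] M]
  [IsScalarTower A (MvPolynomial (Fin k) A) M]

theorem coeff_ne (χ : A →+* κ) (J : Fin (k + 1) → Bool) (hJ0 : J 0 = true)
    (s : MvPolynomial (Fin (k + 1)) A) (h : chiJ χ J s ≠ 0) :
    chiJ χ (fun j => J (Fin.succ j)) ((MvPolynomial.finSuccEquiv A k s).coeff 0) ≠ 0 := by
  rw [chiJ_eq χ J hJ0 s] at h
  rw [Polynomial.coeff_zero_eq_eval_zero]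
  exact h

/-- the Betti bound for one slab -/
theorem slab_HB (hZNIL : ZNIL) (hREGR0 : REGR0) (χ : A →+* κ) (c : ℕ) (J : Fin (k + 1) → Bool)
    (hJ0 : J 0 = true) (ih : G2 χ c (fun j => J (Fin.succ j)))
    (hs : ∀ (s : MvPolynomial (Fin (k + 1)) A) (x : M),
      (MvPolynomial.finSuccEquiv A k s) • x = s • x)
    (ℳ : (Fin (k + 1) → ℤ) → Submodule A M) (hint : DirectSum.IsInternal ℳ)
    (hX : ∀ j a x, x ∈ ℳ a →
      (MvPolynomial.X j : MvPolynomial (Fin (k + 1)) A) • x ∈ ℳ (a + Pi.single j 1))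
    (hN : DirectSum.IsInternal (NC hs ℳ hX)) (hNIL : NIL χ J M) (hB : BASEH χ c J M) (t : ℤ)
    (hnz : NZ (chiJ χ (fun j => J (Fin.succ j))) (NC hs ℳ hX t))
    (hfin : Module.Finite (MvPolynomial (Fin k) A) (NC hs ℳ hX t)) :
    HB (chiJ χ (fun j => J (Fin.succ j))) (NC hs ℳ hX t)
      (fun i => (c + ∑ j : Fin k, if J (Fin.succ j) = true then 1 else 0).choose i) := by
  refine ih (NC hs ℳ hX t)
    (fun b => (ℳ (Fin.cons t b)).comap (((NC hs ℳ hX t).subtype).restrictScalars A))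
    ?_ ?_ hnz ?_ ?_
  · have h := (hREGR0 A k M ℳ hint).2 t
    let f : ↥(⨆ b : Fin k → ℤ, ℳ (Fin.cons t b)) ≃ₗ[A] ↥(NC hs ℳ hX t) :=
      { toFun := fun x => ⟨x.1, x.2⟩
        map_add' := fun x y => rfl
        map_smul' := fun a x => rfl
        invFun := fun x => ⟨x.1, x.2⟩
        left_inv := fun x => rfl
        right_inv := fun x => rfl }
    exact internal_transport f _ _ (fun i x => Iff.rfl) h
  · intro j b x hx
    rw [Submodule.mem_comap] at hx ⊢
    have h1 := hX j.succ _ _ hx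
    rw [single_cons, ← smul_mvX hs] at h1
    exact h1
  · intro j hj
    obtain ⟨n, s, hs1, hs2⟩ := hNIL j.succ hj
    have h := hZNIL (MvPolynomial (Fin k) A) M (NC hs ℳ hX) hN (NC_shift hs ℳ hX)
      (MvPolynomial.finSuccEquiv A k s) (MvPolynomial.X j ^ n) 0 (by
        intro x
        have e : MvPolynomial.finSuccEquiv A k s *
            (Polynomial.C (MvPolynomial.X j ^ n) * X ^ 0) =
            MvPolynomial.finSuccEquiv A k (s * MvPolynomial.X j.succ ^ n) := by
          simp only [map_mul, map_pow, MvPolynomial.finSuccEquiv_X_succ, pow_zero, mul_one]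
        rw [e, hs]
        exact hs2 x)
    refine ⟨n, (MvPolynomial.finSuccEquiv A k s).coeff 0, coeff_ne χ J hJ0 s hs1, fun x => ?_⟩
    apply Subtype.ext
    have h2 := h x
    rw [pow_zero, mul_one, ← smul_C] at h2
    exact h2
  · intro N _ _ _ hNZ hk
    apply hB N hNZ
    rintro a ⟨α, hα, hkill⟩ y
    apply hk a ?_ y
    refine ⟨Finsupp.tail α, fun j hj => hα _ hj, fun x => ?_⟩
    apply Subtype.ext
    have h1 : (MvPolynomial.monomial (Finsupp.tail α) a : MvPolynomial (Fin k) A) • (x : M) = 0 := by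
      rw [smul_C, ← fse_monomial α (hα 0 hJ0) a, hs]
      exact hkill x
    exact h1

theorem core (hSTEP : STEP) (hZCUT : ZCUT) (hZNIL : ZNIL) (hREGR0 : REGR0) (hINTCAR : INTCAR)
    [IsNoetherianRing A] (χ : A →+* κ) (c : ℕ) (J : Fin (k + 1) → Bool)
    (hJ0 : J 0 = true) (ih : G2 χ c (fun j => J (Fin.succ j)))
    (hs : ∀ (s : MvPolynomial (Fin (k + 1)) A) (x : M),
      (MvPolynomial.finSuccEquiv A k s) • x = s • x)
    (hfin : Module.Finite (MvPolynomial (Fin k) A)[X] M)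
    (ℳ : (Fin (k + 1) → ℤ) → Submodule A M) (hint : DirectSum.IsInternal ℳ)
    (hX : ∀ j a x, x ∈ ℳ a →
      (MvPolynomial.X j : MvPolynomial (Fin (k + 1)) A) • x ∈ ℳ (a + Pi.single j 1))
    (hNZ : NZ (chiJ χ J) M) (hNIL : NIL χ J M) (hB : BASEH χ c J M) :
    HB ((chiJ χ (fun j => J (Fin.succ j))).comp (Polynomial.evalRingHom 0)) M
      (fun i => (c + ∑ j : Fin k, if J (Fin.succ j) = true then 1 else 0).choose i +
        if i = 0 then 0 else
          (c + ∑ j : Fin k, if J (Fin.succ j) = true then 1 else 0).choose (i - 1)) := by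
  have hN : DirectSum.IsInternal (NC hs ℳ hX) :=
    hINTCAR A (MvPolynomial (Fin k) A) ℤ M (fun t => ⨆ b : Fin k → ℤ, ℳ (Fin.cons t b))
      (NC hs ℳ hX) (fun i x => Iff.rfl) ((hREGR0 A k M ℳ hint).1)
  have hnz' : NZ ((chiJ χ (fun j => J (Fin.succ j))).comp (Polynomial.evalRingHom 0)) M := by
    obtain ⟨x, hx⟩ := hNZ
    refine ⟨x, fun s hs1 => ?_⟩
    have h1 := hx ((MvPolynomial.finSuccEquiv A k).symm s) (by
      rw [chiJ_eq χ J hJ0, AlgEquiv.apply_symm_apply]; exact hs1)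
    rw [← hs, AlgEquiv.apply_symm_apply] at h1
    exact h1
  have hnil : ∃ (n : ℕ) (s : (MvPolynomial (Fin k) A)[X]),
      chiJ χ (fun j => J (Fin.succ j)) (s.coeff 0) ≠ 0 ∧ ∀ x : M, (s * X ^ n) • x = 0 := by
    obtain ⟨n, s, h1, h2⟩ := hNIL 0 hJ0
    refine ⟨n, MvPolynomial.finSuccEquiv A k s, coeff_ne χ J hJ0 s h1, fun x => ?_⟩
    have e : MvPolynomial.finSuccEquiv A k s * X ^ n =
        MvPolynomial.finSuccEquiv A k (s * MvPolynomial.X 0 ^ n) := by
      rw [map_mul, map_pow, MvPolynomial.finSuccEquiv_X_zero]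
    rw [e, hs]
    exact h2 x
  obtain ⟨t₁, π₁, ι₁, s₁, hs₁, hnz₁, hf₁, hπι₁, hx₁, -⟩ :=
    hZCUT (MvPolynomial (Fin k) A) κ (chiJ χ (fun j => J (Fin.succ j))) M (NC hs ℳ hX) hN
      (NC_shift hs ℳ hX) hnz' hnil false
  obtain ⟨t₂, π₂, ι₂, s₂, hs₂, hnz₂, hf₂, hπι₂, -, hx₂⟩ :=
    hZCUT (MvPolynomial (Fin k) A) κ (chiJ χ (fun j => J (Fin.succ j))) M (NC hs ℳ hX) hN
      (NC_shift hs ℳ hX) hnz' hnil true
  exact hSTEP (MvPolynomial (Fin k) A) κ (chiJ χ (fun j => J (Fin.succ j))) M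
    (NC hs ℳ hX t₁) (NC hs ℳ hX t₂) ι₁ π₁ ι₂ π₂ s₁ s₂ _ _ hs₁ hs₂ (hx₁ rfl) hπι₁ (hx₂ rfl) hπι₂
    (slab_HB hZNIL hREGR0 χ c J hJ0 ih hs ℳ hint hX hN hNIL hB t₁ hnz₁ hf₁)
    (slab_HB hZNIL hREGR0 χ c J hJ0 ih hs ℳ hint hX hN hNIL hB t₂ hnz₂ hf₂)

end Core

theorem main : ISO → STEP → ZCUT → ZNIL → REGR0 → INTCAR → G2TRUE := by
  intro hISO hSTEP hZCUT hZNIL hREGR0 hINTCAR A κ _ _ _ χ c k J hJ0 ih M _ _ _ _ _ ℳ hint hX hNZ
    hNIL hB
  letI iCX : Module (MvPolynomial (Fin k) A)[X] M :=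
    Module.compHom M ((MvPolynomial.finSuccEquiv A k).symm :
      (MvPolynomial (Fin k) A)[X] →+* MvPolynomial (Fin (k + 1)) A)
  letI iC : Module (MvPolynomial (Fin k) A) M :=
    Module.compHom M (Polynomial.C : MvPolynomial (Fin k) A →+* (MvPolynomial (Fin k) A)[X])
  have hs' : ∀ (s : (MvPolynomial (Fin k) A)[X]) (x : M),
      s • x = (MvPolynomial.finSuccEquiv A k).symm s • x := fun s x => rfl
  have hq : ∀ (q : MvPolynomial (Fin k) A) (x : M),
      q • x = (Polynomial.C q : (MvPolynomial (Fin k) A)[X]) • x := fun q x => rfl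
  haveI t1 : IsScalarTower (MvPolynomial (Fin k) A) (MvPolynomial (Fin k) A)[X] M :=
    ⟨fun a b x => by rw [hq, Polynomial.smul_eq_C_mul, mul_smul]⟩
  haveI t2 : IsScalarTower A (MvPolynomial (Fin k) A) M :=
    ⟨fun a q x => by
      rw [hq, hq, ← Polynomial.smul_C, hs', hs', map_smul, smul_assoc]⟩
  have hs : ∀ (s : MvPolynomial (Fin (k + 1)) A) (x : M),
      (MvPolynomial.finSuccEquiv A k s) • x = s • x := by
    intro s x
    rw [hs', AlgEquiv.symm_apply_apply]
  have hfin : Module.Finite (MvPolynomial (Fin k) A)[X] M := by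
    let f : M →ₛₗ[((MvPolynomial.finSuccEquiv A k :
        MvPolynomial (Fin (k + 1)) A →+* (MvPolynomial (Fin k) A)[X]))] M :=
      { toFun := fun x => x
        map_add' := fun x y => rfl
        map_smul' := fun s x => (hs s x).symm }
    exact Module.Finite.of_surjective f (fun x => ⟨x, rfl⟩)
  have hcore := core hSTEP hZCUT hZNIL hREGR0 hINTCAR χ c J hJ0 ih hs hfin ℳ hint hX hNZ hNIL hB
  have hfinal := hISO (MvPolynomial (Fin k) A)[X] (MvPolynomial (Fin (k + 1)) A) κ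
    ((MvPolynomial.finSuccEquiv A k).symm.toRingEquiv) _ (chiJ χ J) M M (AddEquiv.refl M) _
    (by
      intro s
      rw [chiJ_eq χ J hJ0]
      congr 1
      exact (MvPolynomial.finSuccEquiv A k).apply_symm_apply s)
    (fun s x => rfl) hcore
  have e : (fun i => (c + ∑ j : Fin k, if J (Fin.succ j) = true then 1 else 0).choose i +
        if i = 0 then 0 else
          (c + ∑ j : Fin k, if J (Fin.succ j) = true then 1 else 0).choose (i - 1)) =
      (fun i => (c + ∑ j : Fin (k + 1), if J j = true then 1 else 0).choose i) := by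
    funext i
    rw [Fin.sum_univ_succ, if_pos hJ0]
    generalize (∑ j : Fin k, if J (Fin.succ j) = true then 1 else 0) = m
    have e2 : c + (1 + m) = (c + m) + 1 := by ring
    rw [e2]
    cases i with
    | zero => simp
    | succ i =>
      rw [Nat.choose_succ_succ, if_neg (Nat.succ_ne_zero i), Nat.add_sub_cancel, Nat.add_comm]
  rw [e] at hfinal
  exact hfinal

end Pool.Agent.W233.BEG2TRUE
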