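import Mathlib

/-!
Three-graphs: general lemmas.
-/

set_option autoImplicit false
open Classical

namespace Pool.Agent.W233.EPPA

/-- indicator of membership -/
noncomputable def io {α : Type} (H : Finset (Finset α)) (e : Finset α) : ZMod 2 :=
  if e ∈ H then 1 else 0

lemma card_five {α : Type} [DecidableEq α] (r : α → α → Prop) (hr : Equivalence r)
    (H : Finset (Finset α))
    (hH : ∀ e ∈ H, e.card = 4 ∧ ∀ v ∈ e, (e.filter (fun w => r v w)).card = 2)
    (a1 a2 a3 b b' : α) (h12 : a1 ≠ a2) (h13 : a1 ≠ a3) (h23 : a2 ≠ a3) (hb : b ≠ b')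
    (r12 : r a1 a2) (r13 : r a1 a3) (rb : r b b') (nr : ¬ r a1 b) :
    ((H.filter (fun e => e ⊆ ({a1, a2, a3, b, b'} : Finset α))).card : ZMod 2) =
      io H {a2, a3, b, b'} + (io H {a1, a3, b, b'} + io H {a1, a2, b, b'}) := by
  have n1b : a1 ≠ b := by rintro rfl; exact nr (hr.refl _)
  have n1b' : a1 ≠ b' := by rintro rfl; exact nr (hr.symm rb)
  have nr2 : ¬ r a2 b := fun h => nr (hr.trans r12 h)
  have nr3 : ¬ r a3 b := fun h => nr (hr.trans r13 h)
  have n2b : a2 ≠ b := by rintro rfl; exact nr2 (hr.refl _)
  have n2b' : a2 ≠ b' := by rintro rfl; exact nr2 (hr.symm rb)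
  have n3b : a3 ≠ b := by rintro rfl; exact nr3 (hr.refl _)
  have n3b' : a3 ≠ b' := by rintro rfl; exact nr3 (hr.symm rb)
  have hS : ({a1, a2, a3, b, b'} : Finset α).card = 5 := by
    rw [Finset.card_insert_of_notMem, Finset.card_insert_of_notMem,
      Finset.card_insert_of_notMem, Finset.card_insert_of_notMem, Finset.card_singleton]
    · simpa using hb
    · simp [n3b, n3b']
    · simp [n2b, n2b', h23]
    · simp [n1b, n1b', h12, h13]
  have key : H.filter (fun e => e ⊆ ({a1, a2, a3, b, b'} : Finset α)) =
      ({({a2, a3, b, b'} : Finset α), {a1, a3, b, b'}, {a1, a2, b, b'}} :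
        Finset (Finset α)).filter (fun e => e ∈ H) := by
    ext e
    simp only [Finset.mem_filter, Finset.mem_insert, Finset.mem_singleton]
    constructor
    · rintro ⟨heH, heS⟩
      refine ⟨?_, heH⟩
      obtain ⟨he4, he2⟩ := hH e heH
      have hsd : (({a1, a2, a3, b, b'} : Finset α) \ e).card = 1 := by
        rw [Finset.card_sdiff_of_subset heS, hS, he4]
      obtain ⟨v, hv⟩ := Finset.card_eq_one.mp hsd
      have hev : e = ({a1, a2, a3, b, b'} : Finset α).erase v := by
        rw [← Finset.sdiff_singleton_eq_erase, ← hv, Finset.sdiff_sdiff_eq_self heS]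
      have hvS : v ∈ ({a1, a2, a3, b, b'} : Finset α) := by
        have : v ∈ (({a1, a2, a3, b, b'} : Finset α) \ e) := by rw [hv]; simp
        exact (Finset.mem_sdiff.mp this).1
      have hbad : ∀ w : α, w ≠ a1 → w ≠ a2 → w ≠ a3 →
          e ≠ ({a1, a2, a3, b, b'} : Finset α).erase w := by
        intro w hw1 hw2 hw3 hew
        have h1 : a1 ∈ e := by rw [hew]; simp [hw1.symm]
        have h2 : a2 ∈ e := by rw [hew]; simp [hw2.symm]
        have h3 : a3 ∈ e := by rw [hew]; simp [hw3.symm]
        have h4 := he2 a1 h1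
        have h5 : ({a1, a2, a3} : Finset α) ⊆ e.filter (fun w => r a1 w) := by
          intro x hx
          simp only [Finset.mem_insert, Finset.mem_singleton] at hx
          rw [Finset.mem_filter]
          rcases hx with rfl | rfl | rfl
          · exact ⟨h1, hr.refl _⟩
          · exact ⟨h2, r12⟩
          · exact ⟨h3, r13⟩
        have h6 := Finset.card_le_card h5
        rw [h4, Finset.card_insert_of_notMem (by simp [h12, h13]),
          Finset.card_insert_of_notMem (by simpa using h23), Finset.card_singleton] at h6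
        omega
      simp only [Finset.mem_insert, Finset.mem_singleton] at hvS
      rcases hvS with rfl | rfl | rfl | rfl | rfl
      · left
        rw [hev]
        ext x
        simp only [Finset.mem_erase, Finset.mem_insert, Finset.mem_singleton]
        constructor
        · rintro ⟨h1, h | h | h | h | h⟩
          · exact absurd h h1
          all_goals simp only [h, true_or, or_true]
        · rintro (h | h | h | h)
          · exact ⟨by rw [h]; exact h12.symm, by simp [h]⟩
          · exact ⟨by rw [h]; exact h13.symm, by simp [h]⟩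
          · exact ⟨by rw [h]; exact n1b.symm, by simp [h]⟩
          · exact ⟨by rw [h]; exact n1b'.symm, by simp [h]⟩
      · right; left
        rw [hev]
        ext x
        simp only [Finset.mem_erase, Finset.mem_insert, Finset.mem_singleton]
        constructor
        · rintro ⟨h1, h | h | h | h | h⟩
          · simp only [h, true_or]
          · exact absurd h h1
          all_goals simp only [h, true_or, or_true]
        · rintro (h | h | h | h)
          · exact ⟨by rw [h]; exact h12, by simp [h]⟩
          · exact ⟨by rw [h]; exact h23.symm, by simp [h]⟩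
          · exact ⟨by rw [h]; exact n2b.symm, by simp [h]⟩
          · exact ⟨by rw [h]; exact n2b'.symm, by simp [h]⟩
      · right; right
        rw [hev]
        ext x
        simp only [Finset.mem_erase, Finset.mem_insert, Finset.mem_singleton]
        constructor
        · rintro ⟨h1, h | h | h | h | h⟩
          · simp only [h, true_or]
          · simp only [h, true_or, or_true]
          · exact absurd h h1
          all_goals simp only [h, true_or, or_true]
        · rintro (h | h | h | h)
          · exact ⟨by rw [h]; exact h13, by simp [h]⟩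
          · exact ⟨by rw [h]; exact h23, by simp [h]⟩
          · exact ⟨by rw [h]; exact n3b.symm, by simp [h]⟩
          · exact ⟨by rw [h]; exact n3b'.symm, by simp [h]⟩
      · exact absurd hev (hbad _ n1b.symm n2b.symm n3b.symm)
      · exact absurd hev (hbad _ n1b'.symm n2b'.symm n3b'.symm)
    · rintro ⟨h1, h2⟩
      refine ⟨h2, ?_⟩
      rcases h1 with rfl | rfl | rfl
      · intro x hx
        simp only [Finset.mem_insert, Finset.mem_singleton] at hx ⊢
        rcases hx with h | h | h | h <;> simp only [h, true_or, or_true]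
      · intro x hx
        simp only [Finset.mem_insert, Finset.mem_singleton] at hx ⊢
        rcases hx with h | h | h | h <;> simp only [h, true_or, or_true]
      · intro x hx
        simp only [Finset.mem_insert, Finset.mem_singleton] at hx ⊢
        rcases hx with h | h | h | h <;> simp only [h, true_or, or_true]
  rw [key, Finset.card_filter, Finset.sum_insert, Finset.sum_insert, Finset.sum_singleton]
  · unfold io
    push_cast
    congr!
  · rw [Finset.mem_singleton]
    intro h
    have : a3 ∈ ({a1, a2, b, b'} : Finset α) := by rw [← h]; simp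
    simp only [Finset.mem_insert, Finset.mem_singleton] at this
    rcases this with h | h | h | h
    · exact h13 h.symm
    · exact h23 h.symm
    · exact n3b h
    · exact n3b' h
  · rw [Finset.mem_insert, Finset.mem_singleton]
    have hn : a1 ∉ ({a2, a3, b, b'} : Finset α) := by
      simp only [Finset.mem_insert, Finset.mem_singleton]
      rintro (h | h | h | h)
      · exact h12 h
      · exact h13 h
      · exact n1b h
      · exact n1b' h
    rintro (h | h)
    · exact hn (by rw [h]; simp)
    · exact hn (by rw [h]; simp)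

/-- same colour -/
def rel {α : Type} (c : α → Bool) (x y : α) : Prop := c x = c y

/-- the hypergraph of a function `h` -/
noncomputable def Hyp {α : Type} [Fintype α] [DecidableEq α] (c : α → Bool)
    (h : α → α → α → α → ZMod 2) : Finset (Finset α) :=
  Finset.univ.filter (fun e => ∃ a a' b b' : α, a ≠ a' ∧ b ≠ b' ∧ c a = c a' ∧ c b = c b' ∧
    c a ≠ c b ∧ e = {a, a', b, b'} ∧ h a a' b b' = 1)

/-- symmetry and additivity -/
structure Good {α : Type} (c : α → Bool) (h : α → α → α → α → ZMod 2) : Prop where
  s1 : ∀ a a' b b', h a a' b b' = h a' a b b'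
  s2 : ∀ a a' b b', h a a' b b' = h b b' a a'
  add : ∀ a1 a2 a3 b b', c a1 = c a2 → c a1 = c a3 → c b = c b' → c a1 ≠ c b →
    h a2 a3 b b' + (h a1 a3 b b' + h a1 a2 b b') = 0

lemma Good.s3 {α : Type} {c : α → Bool} {h : α → α → α → α → ZMod 2} (hg : Good c h)
    (a a' b b' : α) : h a a' b b' = h a a' b' b := by
  rw [hg.s2, hg.s1, hg.s2]

lemma pair_eq {α : Type} [DecidableEq α] (c : α → Bool) {a a' b b' u u' w w' : α}
    (hu : u ≠ u')
    (ca : c a = c a') (cb : c b = c b') (cu : c u = c u') (cw : c w = c w')
    (cau : c a = c u) (cuw : c u ≠ c w) (cab : c a ≠ c b)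
    (he : ({a, a', b, b'} : Finset α) = {u, u', w, w'}) :
    (u = a ∧ u' = a') ∨ (u = a' ∧ u' = a) := by
  have h1 : u ∈ ({a, a', b, b'} : Finset α) := by rw [he]; simp
  have h2 : u' ∈ ({a, a', b, b'} : Finset α) := by rw [he]; simp
  simp only [Finset.mem_insert, Finset.mem_singleton] at h1 h2
  have h3 : u = a ∨ u = a' := by
    rcases h1 with h | h | h | h
    · exact Or.inl h
    · exact Or.inr h
    · exact absurd (by rw [cau, h]) cab
    · exact absurd (by rw [cau, h, cb]) cab
  have h4 : u' = a ∨ u' = a' := by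
    rcases h2 with h | h | h | h
    · exact Or.inl h
    · exact Or.inr h
    · exact absurd (by rw [cau, cu, h]) cab
    · exact absurd (by rw [cau, cu, h, cb]) cab
  rcases h3 with rfl | rfl <;> rcases h4 with rfl | rfl
  · exact absurd rfl hu
  · exact Or.inl ⟨rfl, rfl⟩
  · exact Or.inr ⟨rfl, rfl⟩
  · exact absurd rfl hu

lemma mem_Hyp {α : Type} [Fintype α] [DecidableEq α] {c : α → Bool}
    {h : α → α → α → α → ZMod 2} (hg : Good c h) (a a' b b' : α) (ha : a ≠ a') (hb : b ≠ b')
    (ca : c a = c a') (cb : c b = c b') (cab : c a ≠ c b) :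
    ({a, a', b, b'} : Finset α) ∈ Hyp c h ↔ h a a' b b' = 1 := by
  unfold Hyp
  simp only [Finset.mem_filter, Finset.mem_univ, true_and]
  constructor
  · rintro ⟨u, u', w, w', hu, hw, cu, cw, cuw, he, hh⟩
    by_cases cau : c a = c u
    · have cbw : c b = c w := by
        revert cab cuw cau
        cases c a <;> cases c u <;> cases c b <;> cases c w <;> simp
      have h1 := pair_eq c hu ca cb cu cw cau cuw cab he
      have he' : ({b, b', a, a'} : Finset α) = {w, w', u, u'} := by
        have e1 : ({b, b', a, a'} : Finset α) = {a, a', b, b'} := by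
          ext x; simp only [Finset.mem_insert, Finset.mem_singleton]; tauto
        have e2 : ({w, w', u, u'} : Finset α) = {u, u', w, w'} := by
          ext x; simp only [Finset.mem_insert, Finset.mem_singleton]; tauto
        rw [e1, e2, he]
      have h2 := pair_eq c hw cb ca cw cu cbw cuw.symm cab.symm he'
      rcases h1 with ⟨rfl, rfl⟩ | ⟨rfl, rfl⟩ <;> rcases h2 with ⟨rfl, rfl⟩ | ⟨rfl, rfl⟩
      · exact hh
      · rw [hg.s3]; exact hh
      · rw [hg.s1]; exact hh
      · rw [hg.s1, hg.s3]; exact hh
    · have cbu : c b = c u := by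
        revert cab cuw cau
        cases c a <;> cases c u <;> cases c b <;> cases c w <;> simp
      have caw : c a = c w := by
        revert cab cuw cau
        cases c a <;> cases c u <;> cases c b <;> cases c w <;> simp
      have e1 : ({b, b', a, a'} : Finset α) = {a, a', b, b'} := by
        ext x; simp only [Finset.mem_insert, Finset.mem_singleton]; tauto
      have h1 := pair_eq c hu cb ca cu cw cbu cuw cab.symm (e1.trans he)
      have e2 : ({w, w', u, u'} : Finset α) = {u, u', w, w'} := by
        ext x; simp only [Finset.mem_insert, Finset.mem_singleton]; tauto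
      have h2 := pair_eq c hw ca cb cw cu caw cuw.symm cab (he.trans e2.symm)
      rw [hg.s2]
      rcases h1 with ⟨rfl, rfl⟩ | ⟨rfl, rfl⟩ <;> rcases h2 with ⟨rfl, rfl⟩ | ⟨rfl, rfl⟩
      · exact hh
      · rw [hg.s3]; exact hh
      · rw [hg.s1]; exact hh
      · rw [hg.s1, hg.s3]; exact hh
  · intro hh
    exact ⟨a, a', b, b', ha, hb, ca, cb, cab, rfl, hh⟩

lemma zmod2_cases (x : ZMod 2) : x = 0 ∨ x = 1 := by
  revert x; decide

lemma io_Hyp {α : Type} [Fintype α] [DecidableEq α] {c : α → Bool}
    {h : α → α → α → α → ZMod 2} (hg : Good c h) (a a' b b' : α) (ha : a ≠ a') (hb : b ≠ b')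
    (ca : c a = c a') (cb : c b = c b') (cab : c a ≠ c b) :
    io (Hyp c h) {a, a', b, b'} = h a a' b b' := by
  unfold io
  have := mem_Hyp hg a a' b b' ha hb ca cb cab
  rcases zmod2_cases (h a a' b b') with h0 | h0
  · rw [if_neg (by rw [this, h0]; decide), h0]
  · rw [if_pos (by rw [this, h0]), h0]

lemma Hyp_two {α : Type} [Fintype α] [DecidableEq α] {c : α → Bool}
    {h : α → α → α → α → ZMod 2} :
    ∀ e ∈ Hyp c h, e.card = 4 ∧ ∀ v ∈ e, (e.filter (fun w => rel c v w)).card = 2 := by
  intro e he
  unfold Hyp at he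
  simp only [Finset.mem_filter, Finset.mem_univ, true_and] at he
  obtain ⟨a, a', b, b', ha, hb, ca, cb, cab, rfl, -⟩ := he
  have nab : a ≠ b := fun h => cab (by rw [h])
  have nab' : a ≠ b' := fun h => cab (by rw [h, cb])
  have na'b : a' ≠ b := fun h => cab (by rw [ca, h])
  have na'b' : a' ≠ b' := fun h => cab (by rw [ca, h, cb])
  constructor
  · rw [Finset.card_insert_of_notMem, Finset.card_insert_of_notMem,
      Finset.card_insert_of_notMem, Finset.card_singleton]
    · simpa using hb
    · simp [na'b, na'b']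
    · simp [nab, nab', ha]
  · have hA : ∀ v : α, c v = c a →
        ({a, a', b, b'} : Finset α).filter (fun w => rel c v w) = {a, a'} := by
      intro v hx
      ext y
      simp only [Finset.mem_filter, Finset.mem_insert, Finset.mem_singleton, rel, hx]
      constructor
      · rintro ⟨rfl | rfl | rfl | rfl, h2⟩
        · exact Or.inl rfl
        · exact Or.inr rfl
        · exact absurd h2 cab
        · exact absurd (h2.trans cb.symm) cab
      · rintro (rfl | rfl)
        · exact ⟨Or.inl rfl, rfl⟩
        · exact ⟨Or.inr (Or.inl rfl), ca⟩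
    have hB : ∀ v : α, c v = c b →
        ({a, a', b, b'} : Finset α).filter (fun w => rel c v w) = {b, b'} := by
      intro v hx
      ext y
      simp only [Finset.mem_filter, Finset.mem_insert, Finset.mem_singleton, rel, hx]
      constructor
      · rintro ⟨rfl | rfl | rfl | rfl, h2⟩
        · exact absurd h2.symm cab
        · exact absurd (ca.trans h2.symm) cab
        · exact Or.inl rfl
        · exact Or.inr rfl
      · rintro (rfl | rfl)
        · exact ⟨Or.inr (Or.inr (Or.inl rfl)), rfl⟩
        · exact ⟨Or.inr (Or.inr (Or.inr rfl)), cb⟩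
    intro v hv
    simp only [Finset.mem_insert, Finset.mem_singleton] at hv
    rcases hv with rfl | rfl | rfl | rfl
    · rw [hA v rfl, Finset.card_pair ha]
    · rw [hA v ca.symm, Finset.card_pair ha]
    · rw [hB v rfl, Finset.card_pair hb]
    · rw [hB v cb.symm, Finset.card_pair hb]

lemma even_of_zmod {n : ℕ} (h : (n : ZMod 2) = 0) : Even n :=
  (ZMod.natCast_eq_zero_iff_even).mp h

lemma five_decomp {α : Type} [DecidableEq α] (c : α → Bool) (S : Finset α) (h5 : S.card = 5)
    (h3 : ∀ v ∈ S, (S.filter (fun w => rel c v w)).card ≤ 3) :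
    ∃ a1 a2 a3 b b' : α, a1 ≠ a2 ∧ a1 ≠ a3 ∧ a2 ≠ a3 ∧ b ≠ b' ∧ c a1 = c a2 ∧ c a1 = c a3 ∧
      c b = c b' ∧ c a1 ≠ c b ∧ S = {a1, a2, a3, b, b'} := by
  have hsum : (S.filter (fun w => c w = true)).card + (S.filter (fun w => c w = false)).card = 5 := by
    rw [← h5, ← Finset.card_filter_add_card_filter_not (s := S) (fun w => c w = true)]
    congr 2
    ext w
    simp
  have hle : ∀ x : Bool, (S.filter (fun w => c w = x)).card ≤ 3 := by
    intro x
    rcases Finset.eq_empty_or_nonempty (S.filter (fun w => c w = x)) with h | ⟨v, hv⟩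
    · rw [h]; simp
    · rw [Finset.mem_filter] at hv
      refine le_of_eq_of_le ?_ (h3 v hv.1)
      congr 1
      ext w
      simp only [Finset.mem_filter, rel, hv.2]
      exact and_congr_right fun _ => eq_comm
  have key : ∀ x : Bool, (S.filter (fun w => c w = x)).card = 3 →
      (S.filter (fun w => c w = !x)).card = 2 →
      ∃ a1 a2 a3 b b' : α, a1 ≠ a2 ∧ a1 ≠ a3 ∧ a2 ≠ a3 ∧ b ≠ b' ∧ c a1 = c a2 ∧ c a1 = c a3 ∧
      c b = c b' ∧ c a1 ≠ c b ∧ S = {a1, a2, a3, b, b'} := by
    intro x h1 h2
    obtain ⟨a1, a2, a3, h12, h13, h23, hA⟩ := Finset.card_eq_three.mp h1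
    obtain ⟨b, b', hb, hB⟩ := Finset.card_eq_two.mp h2
    have m : ∀ y, y ∈ S.filter (fun w => c w = x) → c y = x := fun y hy =>
      (Finset.mem_filter.mp hy).2
    have m' : ∀ y, y ∈ S.filter (fun w => c w = !x) → c y = !x := fun y hy =>
      (Finset.mem_filter.mp hy).2
    have e1 : c a1 = x := m _ (by rw [hA]; simp)
    have e2 : c a2 = x := m _ (by rw [hA]; simp)
    have e3 : c a3 = x := m _ (by rw [hA]; simp)
    have e4 : c b = !x := m' _ (by rw [hB]; simp)
    have e5 : c b' = !x := m' _ (by rw [hB]; simp)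
    refine ⟨a1, a2, a3, b, b', h12, h13, h23, hb, by rw [e1, e2], by rw [e1, e3],
      by rw [e4, e5], by rw [e1, e4]; simp, ?_⟩
    have hS : S = S.filter (fun w => c w = x) ∪ S.filter (fun w => c w = !x) := by
      ext y
      simp only [Finset.mem_union, Finset.mem_filter]
      constructor
      · intro hy
        rcases Bool.eq_or_eq_not (c y) x with h | h
        · exact Or.inl ⟨hy, h⟩
        · exact Or.inr ⟨hy, h⟩
      · rintro (h | h) <;> exact h.1
    rw [hS, hA, hB]
    ext y
    simp only [Finset.mem_union, Finset.mem_insert, Finset.mem_singleton]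
    tauto
  have h1 := hle true
  have h2 := hle false
  rcases (show (S.filter (fun w => c w = true)).card = 3 ∧ (S.filter (fun w => c w = false)).card = 2 ∨
    (S.filter (fun w => c w = false)).card = 3 ∧ (S.filter (fun w => c w = true)).card = 2 by omega)
    with ⟨h, h'⟩ | ⟨h, h'⟩
  · exact key true h h'
  · exact key false h h'

/-- the hypergraph of a good function is a three-graph -/
lemma Hyp_five {α : Type} [Fintype α] [DecidableEq α] {c : α → Bool}
    {h : α → α → α → α → ZMod 2} (hg : Good c h) (S : Finset α) (h5 : S.card = 5)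
    (h3 : ∀ v ∈ S, (S.filter (fun w => rel c v w)).card ≤ 3) :
    Even ((Hyp c h).filter (fun e => e ⊆ S)).card := by
  obtain ⟨a1, a2, a3, b, b', h12, h13, h23, hb, c12, c13, cb, cab, rfl⟩ := five_decomp c S h5 h3
  apply even_of_zmod
  have := card_five (rel c) ⟨fun _ => rfl, fun h => h.symm, fun h h' => h.trans h'⟩
    (Hyp c h) Hyp_two a1 a2 a3 b b' h12 h13 h23 hb c12 c13 cb cab
  rw [this, io_Hyp hg _ _ _ _ h23 hb (c12.symm.trans c13) cb (by rw [← c12]; exact cab),
    io_Hyp hg _ _ _ _ h13 hb c13 cb cab, io_Hyp hg _ _ _ _ h12 hb c12 cb cab]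
  exact hg.add a1 a2 a3 b b' c12 c13 cb cab

/-- morphisms -/
lemma mem_Hyp_map {α β : Type} [Fintype α] [DecidableEq α] [Fintype β] [DecidableEq β]
    {c : α → Bool} {h : α → α → α → α → ZMod 2} {c' : β → Bool}
    {h' : β → β → β → β → ZMod 2} (hg : Good c h) (hg' : Good c' h') (g : α ↪ β)
    (hc : ∀ x y, c x = c y ↔ c' (g x) = c' (g y))
    (hh : ∀ a a' b b' : α, a ≠ a' → b ≠ b' → c a = c a' → c b = c b' → c a ≠ c b →
      h' (g a) (g a') (g b) (g b') = h a a' b b') (e : Finset α) :
    e ∈ Hyp c h ↔ e.map g ∈ Hyp c' h' := by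
  have hmap : ∀ a a' b b' : α, ({a, a', b, b'} : Finset α).map g = {g a, g a', g b, g b'} := by
    intro a a' b b'
    simp [Finset.map_insert]
  constructor
  · intro he
    unfold Hyp at he
    simp only [Finset.mem_filter, Finset.mem_univ, true_and] at he
    obtain ⟨a, a', b, b', ha, hb, ca, cb, cab, rfl, hv⟩ := he
    rw [hmap, mem_Hyp hg' _ _ _ _ (g.injective.ne ha) (g.injective.ne hb) ((hc _ _).mp ca)
      ((hc _ _).mp cb) (fun hcon => cab ((hc _ _).mpr hcon)), hh a a' b b' ha hb ca cb cab]
    exact hv
  · intro he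
    have he2 := he
    unfold Hyp at he
    simp only [Finset.mem_filter, Finset.mem_univ, true_and] at he
    obtain ⟨u, u', w, w', hu, hw, cu, cw, cuw, heq, hv⟩ := he
    have m : ∀ y, y ∈ ({u, u', w, w'} : Finset β) → ∃ x ∈ e, g x = y := by
      intro y hy
      rw [← heq, Finset.mem_map] at hy
      exact hy
    obtain ⟨a, -, rfl⟩ := m u (by simp)
    obtain ⟨a', -, rfl⟩ := m u' (by simp)
    obtain ⟨b, -, rfl⟩ := m w (by simp)
    obtain ⟨b', -, rfl⟩ := m w' (by simp)
    have ha : a ≠ a' := fun h => hu (by rw [h])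
    have hb : b ≠ b' := fun h => hw (by rw [h])
    have ca := (hc a a').mpr cu
    have cb := (hc b b').mpr cw
    have cab : c a ≠ c b := fun h => cuw ((hc a b).mp h)
    have hee : e = {a, a', b, b'} := by
      apply Finset.map_injective g
      rw [heq, hmap]
    rw [hee, mem_Hyp hg _ _ _ _ ha hb ca cb cab, ← hh a a' b b' ha hb ca cb cab]
    exact hv

end Pool.Agent.W233.EPPA
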