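import Pool.Agent.W233.Eppa1

/-!
Three-graphs: structure of a three-graph and the extension.
-/

set_option autoImplicit false
open Classical

namespace Pool.Agent.W233.EPPA

lemma z2 (x : ZMod 2) : x + x = 0 := by revert x; decide

/-- the four-point function of a hypergraph -/
noncomputable def h4 {α : Type} [DecidableEq α] (H : Finset (Finset α)) (a a' b b' : α) : ZMod 2 :=
  if a = a' ∨ b = b' then 0 else io H {a, a', b, b'}

lemma h4_good {α : Type} [DecidableEq α] (c : α → Bool) (H : Finset (Finset α))
    (hH : ∀ e ∈ H, e.card = 4 ∧ ∀ v ∈ e, (e.filter (fun w => rel c v w)).card = 2)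
    (h5 : ∀ S : Finset α, S.card = 5 →
          (∀ v ∈ S, (S.filter (fun w => rel c v w)).card ≤ 3) →
          Even (H.filter (fun e => e ⊆ S)).card) : Good c (h4 H) := by
  constructor
  · intro a a' b b'
    have e1 : ({a, a', b, b'} : Finset α) = {a', a, b, b'} := by
      ext x; simp only [Finset.mem_insert, Finset.mem_singleton]; tauto
    unfold h4
    rw [e1]
    exact if_congr (or_congr_left eq_comm) rfl rfl
  · intro a a' b b'
    have e1 : ({a, a', b, b'} : Finset α) = {b, b', a, a'} := by
      ext x; simp only [Finset.mem_insert, Finset.mem_singleton]; tauto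
    unfold h4
    rw [e1]
    exact if_congr or_comm rfl rfl
  · intro a1 a2 a3 b b' c12 c13 cb cab
    unfold h4
    by_cases hb : b = b'
    · simp [hb]
    by_cases h12 : a1 = a2
    · subst h12
      simp [hb, z2]
    by_cases h13 : a1 = a3
    · subst h13
      have e1 : ({a2, a1, b, b'} : Finset α) = {a1, a2, b, b'} := by
        ext x; simp only [Finset.mem_insert, Finset.mem_singleton]; tauto
      simp [hb, z2, e1, eq_comm (a := a2) (b := a1)]
    by_cases h23 : a2 = a3
    · subst h23
      simp [hb, z2]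
    simp only [hb, h12, h13, h23, or_self, if_false]
    have n1b : a1 ≠ b := fun h => cab (by rw [h])
    have n1b' : a1 ≠ b' := fun h => cab (by rw [h, cb])
    have n2b : a2 ≠ b := fun h => cab (by rw [c12, h])
    have n2b' : a2 ≠ b' := fun h => cab (by rw [c12, h, cb])
    have n3b : a3 ≠ b := fun h => cab (by rw [c13, h])
    have n3b' : a3 ≠ b' := fun h => cab (by rw [c13, h, cb])
    have hS : ({a1, a2, a3, b, b'} : Finset α).card = 5 := by
      rw [Finset.card_insert_of_notMem, Finset.card_insert_of_notMem,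
        Finset.card_insert_of_notMem, Finset.card_insert_of_notMem, Finset.card_singleton]
      · simpa using hb
      · simp [n3b, n3b']
      · simp [n2b, n2b', h23]
      · simp [n1b, n1b', h12, h13]
    have hev := h5 _ hS (by
      intro v hv
      simp only [Finset.mem_insert, Finset.mem_singleton] at hv
      have hA : c v = c a1 → (({a1, a2, a3, b, b'} : Finset α).filter
          (fun w => rel c v w)).card ≤ 3 := by
        intro hv1
        have : (({a1, a2, a3, b, b'} : Finset α).filter (fun w => rel c v w)) ⊆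
            ({a1, a2, a3} : Finset α) := by
          intro y hy
          simp only [Finset.mem_filter, Finset.mem_insert, Finset.mem_singleton, rel, hv1] at hy ⊢
          rcases hy with ⟨h | h | h | h | h, h2⟩
          · exact Or.inl h
          · exact Or.inr (Or.inl h)
          · exact Or.inr (Or.inr h)
          · exact absurd (by rw [h2, h]) cab
          · exact absurd (by rw [h2, h, cb]) cab
        exact (Finset.card_le_card this).trans Finset.card_le_three
      have hB : c v = c b → (({a1, a2, a3, b, b'} : Finset α).filter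
          (fun w => rel c v w)).card ≤ 3 := by
        intro hv1
        have : (({a1, a2, a3, b, b'} : Finset α).filter (fun w => rel c v w)) ⊆
            ({b, b'} : Finset α) := by
          intro y hy
          simp only [Finset.mem_filter, Finset.mem_insert, Finset.mem_singleton, rel, hv1] at hy ⊢
          rcases hy with ⟨h | h | h | h | h, h2⟩
          · exact absurd (by rw [h2, h]) cab
          · exact absurd (by rw [h2, h, c12]) cab
          · exact absurd (by rw [h2, h, c13]) cab
          · exact Or.inl h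
          · exact Or.inr h
        exact ((Finset.card_le_card this).trans Finset.card_le_two).trans (by norm_num)
      rcases hv with h | h | h | h | h
      · exact hA (by rw [h])
      · exact hA (by rw [h, c12])
      · exact hA (by rw [h, c13])
      · exact hB (by rw [h])
      · exact hB (by rw [h, cb]))
    have h0 := (ZMod.natCast_eq_zero_iff_even).mpr hev
    rw [← h0]
    exact (card_five (rel c) ⟨fun _ => rfl, fun h => h.symm, fun h h' => h.trans h'⟩ H hH
      a1 a2 a3 b b' h12 h13 h23 hb c12 c13 cb cab).symm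

lemma Hyp_h4 {α : Type} [Fintype α] [DecidableEq α] (c : α → Bool) (H : Finset (Finset α))
    (hH : ∀ e ∈ H, e.card = 4 ∧ ∀ v ∈ e, (e.filter (fun w => rel c v w)).card = 2) :
    H = Hyp c (h4 H) := by
  ext e
  constructor
  · intro he
    obtain ⟨h4', h2⟩ := hH e he
    have hne : e.Nonempty := by
      rw [← Finset.card_pos, h4']; norm_num
    obtain ⟨v, hv⟩ := hne
    obtain ⟨a, a', haa, hA⟩ := Finset.card_eq_two.mp (h2 v hv)
    have hcompl : (e.filter (fun w => ¬ rel c v w)).card = 2 := by
      have h6 := Finset.card_filter_add_card_filter_not (s := e) (fun w => rel c v w)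
      rw [h2 v hv, h4'] at h6
      have h7 : (e.filter (fun w => ¬ rel c v w)).card = 4 - 2 := by
        rw [← h6, Nat.add_sub_cancel_left]
      rw [h7]
    obtain ⟨b, b', hbb, hB⟩ := Finset.card_eq_two.mp hcompl
    have ma : a ∈ e.filter (fun w => rel c v w) := by rw [hA]; simp
    have ma' : a' ∈ e.filter (fun w => rel c v w) := by rw [hA]; simp
    have mb : b ∈ e.filter (fun w => ¬ rel c v w) := by rw [hB]; simp
    have mb' : b' ∈ e.filter (fun w => ¬ rel c v w) := by rw [hB]; simp
    rw [Finset.mem_filter] at ma ma' mb mb'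
    unfold rel at ma ma' mb mb'
    have heq : e = {a, a', b, b'} := by
      rw [← Finset.filter_union_filter_not_eq (fun w => rel c v w) e, hA, hB]
      ext x; simp only [Finset.mem_union, Finset.mem_insert, Finset.mem_singleton]; tauto
    unfold Hyp
    simp only [Finset.mem_filter, Finset.mem_univ, true_and]
    refine ⟨a, a', b, b', haa, hbb, by rw [← ma.2, ← ma'.2], ?_, by rw [← ma.2]; exact mb.2,
      heq, ?_⟩
    · have h1 := mb.2
      have h2 := mb'.2
      revert h1 h2
      cases c v <;> cases c b <;> cases c b' <;> simp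
    · unfold h4 io
      rw [if_neg (by tauto), ← heq, if_pos]
      exact he
  · intro he
    unfold Hyp at he
    simp only [Finset.mem_filter, Finset.mem_univ, true_and] at he
    obtain ⟨a, a', b, b', ha, hb, ca, cb, cab, rfl, hv⟩ := he
    by_contra hcon
    unfold h4 io at hv
    rw [if_neg (by tauto), if_neg hcon] at hv
    exact absurd hv (by decide)

/-- a good function comes from a symmetric edge function -/
lemma exists_edge {α : Type} (c : α → Bool) (h : α → α → α → α → ZMod 2)
    (hg : Good c h) : ∃ E : α → α → ZMod 2, (∀ a b, E a b = E b a) ∧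
      ∀ a a' b b', c a = c a' → c b = c b' → c a ≠ c b →
        h a a' b b' = E a b + E a' b + E a b' + E a' b' := by
  by_cases hx : ∃ x0, c x0 = false
  swap
  · refine ⟨fun _ _ => 0, fun _ _ => rfl, ?_⟩
    intro a a' b b' _ _ hab
    exfalso
    apply hx
    cases ha : c a
    · exact ⟨a, ha⟩
    · cases hb : c b
      · exact ⟨b, hb⟩
      · exact absurd (ha.trans hb.symm) hab
  by_cases hy : ∃ y0, c y0 = true
  swap
  · refine ⟨fun _ _ => 0, fun _ _ => rfl, ?_⟩
    intro a a' b b' _ _ hab
    exfalso
    apply hy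
    cases ha : c a
    · cases hb : c b
      · exact absurd (ha.trans hb.symm) hab
      · exact ⟨b, hb⟩
    · exact ⟨a, ha⟩
  obtain ⟨x0, hx0⟩ := hx
  obtain ⟨y0, hy0⟩ := hy
  have key : ∀ a a' b b', c a = false → c a' = false → c b = true → c b' = true →
      h a a' b b' = h a x0 b y0 + h a' x0 b y0 + h a x0 b' y0 + h a' x0 b' y0 := by
    intro a a' b b' ha ha' hb hb'
    have e1 : ∀ a a', c a = false → c a' = false → h a a' b b' = h a x0 b b' + h a' x0 b b' := by
      intro a a' ha ha'
      have := hg.add x0 a a' b b' (by rw [hx0, ha]) (by rw [hx0, ha']) (by rw [hb, hb'])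
        (by rw [hx0, hb]; decide)
      rw [hg.s1 x0 a', hg.s1 x0 a] at this
      linear_combination this - (z2 (h a' x0 b b')) - (z2 (h a x0 b b'))
    have e2 : ∀ a, c a = false → h a x0 b b' = h a x0 b y0 + h a x0 b' y0 := by
      intro a ha
      have := hg.add y0 b b' a x0 (by rw [hy0, hb]) (by rw [hy0, hb']) (by rw [ha, hx0])
        (by rw [hy0, ha]; decide)
      rw [← hg.s2 a x0 b b', ← hg.s2 a x0 y0 b', ← hg.s2 a x0 y0 b, hg.s3 a x0 y0 b',
        hg.s3 a x0 y0 b] at this
      linear_combination this - (z2 (h a x0 b' y0)) - (z2 (h a x0 b y0))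
    rw [e1 a a' ha ha', e2 a ha, e2 a' ha']
    ring
  refine ⟨fun a b => if c a = false ∧ c b = true then h a x0 b y0 else
    if c a = true ∧ c b = false then h b x0 a y0 else 0, ?_, ?_⟩
  · intro a b
    dsimp only
    cases c a <;> cases c b <;> simp
  · intro a a' b b' ha hb hab
    cases hca : c a
    · have hcb : c b = true := by
        cases hcb : c b
        · exact absurd (hca.trans hcb.symm) hab
        · rfl
      rw [hca] at ha
      rw [hcb] at hb
      simp only [← ha, ← hb, hca, hcb, and_self, if_true]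
      exact key a a' b b' hca ha.symm hcb hb.symm
    · have hcb : c b = false := by
        cases hcb : c b
        · rfl
        · exact absurd (hca.trans hcb.symm) hab
      rw [hca] at ha
      rw [hcb] at hb
      simp only [← ha, ← hb, hca, hcb, and_self, if_true]
      rw [hg.s2, key b b' a a' hcb hb.symm hca ha.symm]
      simp
      ring

/-- the vertices of the extension -/
abbrev V (n : ℕ) : Type :=
  Fin n × Bool × {D : Fin n → Fin n → ZMod 2 // ∃ χ : Fin n → ZMod 2, ∀ j j', D j j' = χ j + χ j'}

/-- colour of a vertex -/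
def cV {n : ℕ} (u : V n) : Bool := u.2.1

/-- four-point function of the extension -/
def hV {n : ℕ} (u u' w w' : V n) : ZMod 2 :=
  u.2.2.1 w.1 w'.1 + u'.2.2.1 w.1 w'.1 + w.2.2.1 u.1 u'.1 + w'.2.2.1 u.1 u'.1

lemma hV_good (n : ℕ) : Good (cV (n := n)) hV := by
  have hsym : ∀ (w : V n) j j', w.2.2.1 j j' = w.2.2.1 j' j := by
    intro w j j'
    obtain ⟨χ, h⟩ := w.2.2.2
    rw [h, h, add_comm]
  have hco : ∀ (w : V n) j1 j2 j3, w.2.2.1 j2 j3 + (w.2.2.1 j1 j3 + w.2.2.1 j1 j2) = 0 := by
    intro w j1 j2 j3
    obtain ⟨χ, h⟩ := w.2.2.2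
    rw [h, h, h]
    linear_combination z2 (χ j1) + z2 (χ j2) + z2 (χ j3)
  constructor
  · intro a a' b b'
    unfold hV
    rw [hsym b a.1 a'.1, hsym b' a.1 a'.1]
    ring
  · intro a a' b b'
    unfold hV
    ring
  · intro a1 a2 a3 b b' _ _ _ _
    unfold hV
    linear_combination z2 (a1.2.2.1 b.1 b'.1) + z2 (a2.2.2.1 b.1 b'.1) + z2 (a3.2.2.1 b.1 b'.1) +
      hco b a1.1 a2.1 a3.1 + hco b' a1.1 a2.1 a3.1

/-- the valuation of a vertex of `A` -/
noncomputable def val {n : ℕ} (c : Fin n → Bool) (E : Fin n → Fin n → ZMod 2) (x j : Fin n) : ZMod 2 :=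
  if c x = false then E x j else 0

lemma val_add {n : ℕ} (c : Fin n → Bool) (E : Fin n → Fin n → ZMod 2) (hE : ∀ a b, E a b = E b a)
    (x j : Fin n) (h : c x ≠ c j) : val c E x j + val c E j x = E x j := by
  unfold val
  cases hx : c x <;> cases hj : c j
  · rw [hx, hj] at h; exact absurd rfl h
  · simp
  · simp [hE]
  · rw [hx, hj] at h; exact absurd rfl h

/-- the embedding -/
noncomputable def emb {n : ℕ} (c : Fin n → Bool) (E : Fin n → Fin n → ZMod 2) : Fin n ↪ V n where
  toFun x := (x, c x, ⟨fun j j' => val c E x j + val c E x j', ⟨val c E x, fun _ _ => rfl⟩⟩)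
  inj' x y h := (Prod.ext_iff.mp h).1

/-- flips seen from a vertex of colour `b` -/
noncomputable def ph {n : ℕ} (F : Fin n → Fin n → ZMod 2) (b : Bool) (i j : Fin n) : ZMod 2 :=
  if b = false then F i j else F j i

lemma ph_not {n : ℕ} (F : Fin n → Fin n → ZMod 2) (b b' : Bool) (h : b ≠ b') (i j : Fin n) :
    ph F b i j = ph F b' j i := by
  unfold ph
  revert h
  cases b <;> cases b' <;> simp

/-- the automorphisms of the extension -/
noncomputable def autFun {n : ℕ} (π : Equiv.Perm (Fin n)) (s : Bool) (F : Fin n → Fin n → ZMod 2) :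
    V n → V n := fun u =>
  (π u.1, xor u.2.1 s, ⟨fun k k' => u.2.2.1 (π.symm k) (π.symm k') +
    ph F u.2.1 u.1 (π.symm k) + ph F u.2.1 u.1 (π.symm k'), by
      obtain ⟨χ, h⟩ := u.2.2.2
      refine ⟨fun k => χ (π.symm k) + ph F u.2.1 u.1 (π.symm k), ?_⟩
      intro k k'
      dsimp only
      rw [h]
      ring⟩)

lemma autFun_inj {n : ℕ} (π : Equiv.Perm (Fin n)) (s : Bool) (F : Fin n → Fin n → ZMod 2) :
    Function.Injective (autFun π s F) := by
  rintro ⟨i, b, D, hD⟩ ⟨i', b', D', hD'⟩ h
  unfold autFun at h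
  simp only [Prod.mk.injEq, Subtype.mk.injEq] at h
  obtain ⟨h1, h2, h3⟩ := h
  have e1 : i = i' := π.injective h1
  have e2 : b = b' := by
    revert h2
    cases b <;> cases b' <;> cases s <;> simp
  subst e1
  subst e2
  congr 3
  funext k k'
  have := congrFun (congrFun h3 (π k)) (π k')
  simp only [Equiv.symm_apply_apply] at this
  linear_combination this

noncomputable def aut {n : ℕ} (π : Equiv.Perm (Fin n)) (s : Bool) (F : Fin n → Fin n → ZMod 2) :
    V n ≃ V n :=
  Equiv.ofBijective (autFun π s F) (Finite.injective_iff_bijective.mp (autFun_inj π s F))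

lemma aut_c {n : ℕ} (π : Equiv.Perm (Fin n)) (s : Bool) (F : Fin n → Fin n → ZMod 2) (u v : V n) :
    cV u = cV v ↔ cV (aut π s F u) = cV (aut π s F v) := by
  show u.2.1 = v.2.1 ↔ xor u.2.1 s = xor v.2.1 s
  cases u.2.1 <;> cases v.2.1 <;> cases s <;> simp

lemma aut_h {n : ℕ} (π : Equiv.Perm (Fin n)) (s : Bool) (F : Fin n → Fin n → ZMod 2)
    (u u' w w' : V n) (hu : cV u = cV u') (hw : cV w = cV w') (huw : cV u ≠ cV w) :
    hV (aut π s F u) (aut π s F u') (aut π s F w) (aut π s F w') = hV u u' w w' := by
  have e : ∀ (u w w' : V n), (aut π s F u).2.2.1 (aut π s F w).1 (aut π s F w').1 =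
      u.2.2.1 w.1 w'.1 + ph F (cV u) u.1 w.1 + ph F (cV u) u.1 w'.1 := by
    intro u w w'
    show u.2.2.1 (π.symm (π w.1)) (π.symm (π w'.1)) +
      ph F u.2.1 u.1 (π.symm (π w.1)) + ph F u.2.1 u.1 (π.symm (π w'.1)) = _
    simp only [Equiv.symm_apply_apply]
    rfl
  unfold hV
  rw [e, e, e, e, ← hu, ← hw, ph_not F (cV w) (cV u) huw.symm w.1 u.1,
    ph_not F (cV w) (cV u) huw.symm w.1 u'.1, ph_not F (cV w) (cV u) huw.symm w'.1 u.1,
    ph_not F (cV w) (cV u) huw.symm w'.1 u'.1]
  linear_combination z2 (ph F (cV u) u.1 w.1) + z2 (ph F (cV u) u.1 w'.1) +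
    z2 (ph F (cV u) u'.1 w.1) + z2 (ph F (cV u) u'.1 w'.1)

end Pool.Agent.W233.EPPA
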