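import Mathlib

set_option autoImplicit false

/-! Descent polynomials of labelled posets by placing the labels one at a time.
A finite poset on the labels `0..p-1` is given by the bit masks `pred x` of the strict down-sets. -/

namespace Pool.Agent.W233.SG

open Polynomial

/-- The label `x` may be placed next when the set of labels placed so far is `I`. -/
def allowed (pred : ℕ → ℕ) (I x : ℕ) : Bool :=
  !(I.testBit x) && ((pred x &&& I) == pred x)

/-- Placing `x`. -/
def upd (I x : ℕ) : ℕ := I ||| (1 <<< x)

theorem testBit_upd (I x y : ℕ) : (upd I x).testBit y = (I.testBit y || decide (x = y)) := by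
  unfold upd
  rw [Nat.testBit_lor, Nat.shiftLeft_eq, one_mul, Nat.testBit_two_pow]

theorem allowed_iff (pred : ℕ → ℕ) (I x : ℕ) :
    allowed pred I x = true ↔ I.testBit x = false ∧
      ∀ y, (pred x).testBit y = true → I.testBit y = true := by
  unfold allowed
  rw [Bool.and_eq_true, Bool.not_eq_true', beq_iff_eq]
  constructor
  · rintro ⟨h1, h2⟩
    refine ⟨h1, fun y hy => ?_⟩
    rw [← h2, Nat.testBit_land, Bool.and_eq_true] at hy
    exact hy.2
  · rintro ⟨h1, h2⟩
    refine ⟨h1, Nat.eq_of_testBit_eq fun y => ?_⟩
    rw [Nat.testBit_land]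
    cases hy : (pred x).testBit y
    · simp
    · simp [h2 y hy]

/-- The list is a possible way to place labels, starting from `I`. -/
def LinL (pred : ℕ → ℕ) : ℕ → List ℕ → Prop
  | _, [] => True
  | I, x :: xs => allowed pred I x = true ∧ LinL pred (upd I x) xs

/-- Number of descents of the list, `l` being the preceding entry. -/
def des : ℕ → List ℕ → ℕ
  | _, [] => 0
  | l, x :: xs => (if x < l then 1 else 0) + des x xs

/-- Generating polynomial of the completions by `n` further labels. -/
noncomputable def W (pred : ℕ → ℕ) (p : ℕ) : ℕ → ℕ × ℕ → ℝ[X]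
  | 0, _ => 1
  | n + 1, k => ∑ x ∈ Finset.range p,
      if allowed pred k.1 x = true then
        (if x < k.2 then X else 1) * W pred p n (upd k.1 x, x) else 0

theorem sum_fun (pred : ℕ → ℕ) (p : ℕ) [∀ (I : ℕ) (xs : List ℕ), Decidable (LinL pred I xs)] :
    ∀ (n I l : ℕ), (∑ f : Fin n → Fin p,
      if LinL pred I (List.ofFn fun i => (f i : ℕ)) then
        (X : ℝ[X]) ^ des l (List.ofFn fun i => (f i : ℕ)) else 0) = W pred p n (I, l) := by
  intro n
  induction n with
  | zero =>
    intro I l
    simp [LinL, des, W]
  | succ n ih =>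
    intro I l
    rw [W, ← (Fin.consEquiv (fun _ => Fin p)).sum_comp, Fintype.sum_prod_type,
      Finset.sum_range]
    refine Finset.sum_congr rfl fun x _ => ?_
    have hcons : ∀ g : Fin n → Fin p,
        (List.ofFn fun i => ((Fin.consEquiv (fun _ => Fin p) (x, g)) i : ℕ)) =
          (x : ℕ) :: List.ofFn fun i => (g i : ℕ) := by
      intro g
      rw [List.ofFn_succ]
      simp [Fin.consEquiv]
    simp only [hcons, LinL, des]
    by_cases ha : allowed pred I x = true
    · simp only [ha, true_and, if_true]
      rw [← ih (upd I x) x, Finset.mul_sum]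
      refine Finset.sum_congr rfl fun g _ => ?_
      by_cases hL : LinL pred (upd I x) (List.ofFn fun i => (g i : ℕ))
      · by_cases hx : (x : ℕ) < l
        · simp [hL, hx, pow_add]
        · simp [hL, hx]
      · simp [hL]
    · simp [ha]

theorem linL_iff (pred : ℕ → ℕ) (p : ℕ) : ∀ (n I : ℕ) (f : Fin n → Fin p),
    LinL pred I (List.ofFn fun i => (f i : ℕ)) ↔
      Function.Injective f ∧ (∀ i, I.testBit (f i) = false) ∧
        ∀ i, ∀ y, (pred (f i)).testBit y = true → I.testBit y = true ∨ ∃ j, j < i ∧ (f j : ℕ) = y := by
  intro n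
  induction n with
  | zero =>
    intro I f
    simp only [List.ofFn_zero, LinL, true_iff]
    exact ⟨fun a => a.elim0, fun a => a.elim0, fun a => a.elim0⟩
  | succ n ih =>
    intro I f
    rw [List.ofFn_succ, LinL, ih (upd I (f 0)) (fun i => f i.succ), allowed_iff]
    constructor
    · rintro ⟨⟨h1, h2⟩, h3, h4, h5⟩
      refine ⟨?_, ?_, ?_⟩
      · intro a b hab
        induction a using Fin.cases with
        | zero =>
          induction b using Fin.cases with
          | zero => rfl
          | succ b =>
            exfalso
            have := h4 b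
            rw [testBit_upd] at this
            simp [hab] at this
        | succ a =>
          induction b using Fin.cases with
          | zero =>
            exfalso
            have := h4 a
            rw [testBit_upd] at this
            simp [hab] at this
          | succ b => rw [h3 hab]
      · intro a
        induction a using Fin.cases with
        | zero => exact h1
        | succ a =>
          have := h4 a
          rw [testBit_upd, Bool.or_eq_false_iff] at this
          exact this.1
      · intro a y hy
        induction a using Fin.cases with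
        | zero => exact Or.inl (h2 y hy)
        | succ a =>
          rcases h5 a y hy with h | ⟨j, hj, hjy⟩
          · rw [testBit_upd, Bool.or_eq_true] at h
            rcases h with h | h
            · exact Or.inl h
            · exact Or.inr ⟨0, Fin.succ_pos a, by simpa using h⟩
          · exact Or.inr ⟨j.succ, Fin.succ_lt_succ_iff.mpr hj, hjy⟩
    · rintro ⟨h1, h2, h3⟩
      refine ⟨⟨h2 0, fun y hy => ?_⟩, ?_, ?_, ?_⟩
      · rcases h3 0 y hy with h | ⟨j, hj, _⟩
        · exact h
        · exact absurd hj (Fin.not_lt_zero j)
      · intro a b hab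
        exact Fin.succ_injective _ (h1 hab)
      · intro a
        rw [testBit_upd, Bool.or_eq_false_iff]
        refine ⟨h2 a.succ, ?_⟩
        rw [decide_eq_false_iff_not]
        intro h
        have := h1 (Fin.ext h)
        exact absurd this.symm (Fin.succ_ne_zero a)
      · intro a y hy
        rcases h3 a.succ y hy with h | ⟨j, hj, hjy⟩
        · left; rw [testBit_upd, h]; rfl
        · induction j using Fin.cases with
          | zero => left; rw [testBit_upd, hjy]; simp
          | succ j => exact Or.inr ⟨j, Fin.succ_lt_succ_iff.mp hj, hjy⟩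

theorem des_eq (p : ℕ) : ∀ (n l : ℕ) (f : Fin n → Fin p) (_ : ∀ h : 0 < n, ¬ (f ⟨0, h⟩ : ℕ) < l),
    des l (List.ofFn fun i => (f i : ℕ)) =
      Fintype.card {i : Fin n // ∃ j : Fin n, j.val = i.val + 1 ∧ f j < f i} := by
  intro n
  induction n with
  | zero =>
    intro l f _
    simp [des]
  | succ n ih =>
    intro l f hl
    have h0 : ¬ (f 0 : ℕ) < l := hl (Nat.succ_pos n)
    rw [List.ofFn_succ, des, if_neg h0, zero_add]
    cases n with
    | zero =>
      simp only [List.ofFn_zero, des]
      symm
      rw [Fintype.card_eq_zero_iff]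
      exact ⟨fun ⟨i, j, hj, _⟩ => by omega⟩
    | succ n =>
      rw [List.ofFn_succ, des]
      have hsplit : Fintype.card {i : Fin (n + 1 + 1) // ∃ j : Fin (n + 1 + 1), j.val = i.val + 1 ∧ f j < f i} =
          (if f 1 < f 0 then 1 else 0) +
          Fintype.card {i : Fin (n + 1) // ∃ j : Fin (n + 1), j.val = i.val + 1 ∧ f j.succ < f i.succ} := by
        classical
        rw [Fintype.card_subtype, Fintype.card_subtype, Finset.card_filter, Finset.card_filter,
          Fin.sum_univ_succ]
        congr 1
        · have : (∃ j : Fin (n + 1 + 1), j.val = (0 : Fin (n + 1 + 1)).val + 1 ∧ f j < f 0) ↔ f 1 < f 0 := by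
            constructor
            · rintro ⟨j, hj, h⟩
              have : j = 1 := Fin.ext (by simpa using hj)
              rwa [this] at h
            · intro h
              exact ⟨1, by simp, h⟩
          simp only [this]
        · refine Finset.sum_congr rfl fun i _ => ?_
          have : (∃ j : Fin (n + 1 + 1), j.val = i.succ.val + 1 ∧ f j < f i.succ) ↔
              ∃ j : Fin (n + 1), j.val = i.val + 1 ∧ f j.succ < f i.succ := by
            constructor
            · rintro ⟨j, hj, h⟩
              induction j using Fin.cases with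
              | zero => simp at hj
              | succ j => exact ⟨j, by simpa using hj, h⟩
            · rintro ⟨j, hj, h⟩
              exact ⟨j.succ, by simpa using hj, h⟩
          simp only [this]
      rw [hsplit, ← ih (0) (fun i => f i.succ) (by simp), List.ofFn_succ, des, if_neg (Nat.not_lt_zero _),
        zero_add]
      rfl

/-- The sum over linear extensions equals the placement polynomial. -/
theorem sum_perm (pred : ℕ → ℕ) (p : ℕ) (le : Fin p → Fin p → Prop)
    (hle : ∀ a b : Fin p, le a b ↔ a = b ∨ (pred b).testBit a = true)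
    (hp : ∀ b : Fin p, ∀ y, (pred b).testBit y = true → y < p)
    (hir : ∀ b : Fin p, (pred b).testBit b = false)
    (d1 : DecidablePred fun σ : Equiv.Perm (Fin p) => ∀ i j, le (σ i) (σ j) → i ≤ j)
    (d2 : ∀ σ : Equiv.Perm (Fin p), DecidablePred fun i : Fin p => ∃ j : Fin p, j.val = i.val + 1 ∧ σ j < σ i) :
    (∑ σ ∈ @Finset.filter _ (fun σ : Equiv.Perm (Fin p) => ∀ i j, le (σ i) (σ j) → i ≤ j) d1 Finset.univ,
      (X : ℝ[X]) ^ (@Finset.filter _ (fun i : Fin p => ∃ j : Fin p, j.val = i.val + 1 ∧ σ j < σ i) (d2 σ)
        Finset.univ).card) = W pred p p (0, 0) := by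
  classical
  rw [← sum_fun pred p p 0 0, ← Finset.sum_filter]
  refine Finset.sum_bij' (fun σ _ => (σ : Fin p → Fin p))
    (fun f hf => Equiv.ofBijective f ?_) ?_ ?_ ?_ ?_ ?_
  · rw [Finset.mem_filter] at hf
    exact Finite.injective_iff_bijective.mp ((linL_iff pred p p 0 f).mp hf.2).1
  · intro σ hσ
    rw [Finset.mem_filter] at hσ ⊢
    refine ⟨Finset.mem_univ _, (linL_iff pred p p 0 σ).mpr ⟨σ.injective, by simp, ?_⟩⟩
    intro i y hy
    right
    have hyp := hp _ y hy
    refine ⟨σ.symm ⟨y, hyp⟩, ?_, by simp⟩
    have h := hσ.2 (σ.symm ⟨y, hyp⟩) i ((hle _ _).mpr (Or.inr (by simpa using hy)))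
    refine lt_of_le_of_ne h ?_
    intro he
    rw [← he] at hy
    simp only [Equiv.apply_symm_apply] at hy
    have := hir ⟨y, hyp⟩
    simp only at this
    rw [this] at hy
    exact Bool.noConfusion hy
  · intro f hf
    rw [Finset.mem_filter] at hf ⊢
    refine ⟨Finset.mem_univ _, ?_⟩
    obtain ⟨h1, _, h3⟩ := (linL_iff pred p p 0 f).mp hf.2
    intro i j hij
    simp only [Equiv.ofBijective_apply] at hij
    rcases (hle _ _).mp hij with h | h
    · exact (h1 h).le
    · rcases h3 j _ h with h | ⟨j', hj', he⟩
      · simp at h
      · have := h1 (Fin.ext he)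
        rw [← this]
        exact hj'.le
  · intro σ _
    ext i
    rfl
  · intro f _
    rfl
  · intro σ _
    congr 1
    rw [des_eq p p 0 σ (by simp), Fintype.card_subtype]

end Pool.Agent.W233.SG
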