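import Pool.Agent.W233.SG1

set_option autoImplicit false

/-! Tabulated evaluation of the placement polynomial, and the Laguerre inequality. -/

namespace Pool.Agent.W233.SG

open Polynomial

/-- Coefficient lists as polynomials. -/
noncomputable def toPoly : List ℕ → ℝ[X]
  | [] => 0
  | a :: l => C (a : ℝ) + X * toPoly l

/-- Addition of coefficient lists. -/
def ladd : List ℕ → List ℕ → List ℕ
  | [], m => m
  | a :: l, [] => a :: l
  | a :: l, b :: m => (a + b) :: ladd l m

theorem toPoly_ladd : ∀ l m : List ℕ, toPoly (ladd l m) = toPoly l + toPoly m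
  | [], m => by simp [ladd, toPoly]
  | a :: l, [] => by simp [ladd, toPoly]
  | a :: l, b :: m => by
    simp only [ladd, toPoly, toPoly_ladd l m, Nat.cast_add, C_add]
    ring

/-- A table: states with coefficient lists. -/
abbrev Tbl := List ((ℕ × ℕ) × List ℕ)

/-- Adding the list `q` to the entry of the state `k`. -/
def ins (k : ℕ × ℕ) (q : List ℕ) : Tbl → Tbl
  | [] => [(k, q)]
  | (k', q') :: t => if (k.2 == k'.2 && k.1 == k'.1) = true then (k', ladd q q') :: t
      else (k', q') :: ins k q t

/-- The value of a table with `n` labels still to be placed. -/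
noncomputable def val (pred : ℕ → ℕ) (p n : ℕ) : Tbl → ℝ[X]
  | [] => 0
  | (k, q) :: t => toPoly q * W pred p n k + val pred p n t

theorem val_ins (pred : ℕ → ℕ) (p n : ℕ) (k : ℕ × ℕ) (q : List ℕ) : ∀ t : Tbl,
    val pred p n (ins k q t) = toPoly q * W pred p n k + val pred p n t
  | [] => by simp [ins, val]
  | (k', q') :: t => by
    unfold ins
    split
    · rename_i h
      rw [Bool.and_eq_true, beq_iff_eq, beq_iff_eq] at h
      have hk : k = k' := Prod.ext h.2 h.1
      subst hk
      simp only [val, toPoly_ladd]
      ring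
    · simp only [val, val_ins pred p n k q t]
      ring

/-- Emitting the successors of a state, the labels `< m` being tried. -/
def emit (pred : ℕ → ℕ) (k : ℕ × ℕ) (q : List ℕ) : ℕ → Tbl → Tbl
  | 0, t => t
  | m + 1, t => emit pred k q m
      (if allowed pred k.1 m = true then ins (upd k.1 m, m) (if m < k.2 then 0 :: q else q) t else t)

theorem val_emit (pred : ℕ → ℕ) (p n : ℕ) (k : ℕ × ℕ) (q : List ℕ) : ∀ (m : ℕ) (t : Tbl),
    val pred p n (emit pred k q m t) = toPoly q * (∑ x ∈ Finset.range m,
      if allowed pred k.1 x = true then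
        (if x < k.2 then X else 1) * W pred p n (upd k.1 x, x) else 0) + val pred p n t
  | 0, t => by simp [emit]
  | m + 1, t => by
    rw [emit, val_emit pred p n k q m, Finset.sum_range_succ]
    by_cases ha : allowed pred k.1 m = true
    · simp only [ha, if_true, val_ins]
      by_cases hm : m < k.2
      · simp only [hm, if_true, toPoly]
        simp only [Nat.cast_zero, C_0]
        ring
      · simp only [hm, if_false]
        ring
    · simp only [ha]
      simp

/-- One step. -/
def step (pred : ℕ → ℕ) (p : ℕ) : Tbl → Tbl → Tbl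
  | [], acc => acc
  | (k, q) :: t, acc => step pred p t (emit pred k q p acc)

theorem val_step (pred : ℕ → ℕ) (p n : ℕ) : ∀ (t acc : Tbl),
    val pred p n (step pred p t acc) = val pred p (n + 1) t + val pred p n acc
  | [], acc => by simp [step, val]
  | (k, q) :: t, acc => by
    rw [step, val_step pred p n t, val_emit, val, W]
    ring

/-- Several steps. -/
def steps (pred : ℕ → ℕ) (p : ℕ) : ℕ → Tbl → Tbl
  | 0, t => t
  | n + 1, t => steps pred p n (step pred p t [])

theorem val_steps (pred : ℕ → ℕ) (p : ℕ) : ∀ (n : ℕ) (t : Tbl),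
    val pred p 0 (steps pred p n t) = val pred p n t
  | 0, t => rfl
  | n + 1, t => by
    rw [steps, val_steps pred p n, val_step]
    simp [val]

/-- Sum of all the lists in a table. -/
def total : Tbl → List ℕ
  | [] => []
  | (_, q) :: t => ladd q (total t)

theorem val_zero (pred : ℕ → ℕ) (p : ℕ) : ∀ t : Tbl, val pred p 0 t = toPoly (total t)
  | [] => by simp [val, total, toPoly]
  | (k, q) :: t => by
    rw [val, total, toPoly_ladd, val_zero pred p t, W, mul_one]

theorem W_eq (pred : ℕ → ℕ) (p : ℕ) :
    W pred p p (0, 0) = toPoly (total (steps pred p p [((0, 0), [1])])) := by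
  rw [← val_zero pred p, val_steps]
  simp [val, toPoly]

/-- Laguerre's inequality: a real polynomial with only real zeros satisfies
`P(x) P''(x) ≤ P'(x)²` on the real line. -/
theorem laguerre : ∀ (n : ℕ) (P : ℝ[X]), P.natDegree ≤ n →
    (∀ z : ℂ, aeval z P = 0 → z.im = 0) → P ≠ 0 → ∀ x : ℝ,
    P.eval x * P.derivative.derivative.eval x ≤ P.derivative.eval x ^ 2 := by
  intro n
  induction n with
  | zero =>
    intro P hP _ _ x
    rw [eq_C_of_natDegree_le_zero hP]
    simp
  | succ n ih =>
    intro P hP hz h0 x
    by_cases hd : P.natDegree = 0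
    · rw [eq_C_of_natDegree_le_zero hd.le]
      simp
    · have hdeg : (P.map (algebraMap ℝ ℂ)).degree ≠ 0 := by
        rw [degree_map]
        intro h
        exact hd (natDegree_eq_of_degree_eq_some h)
      obtain ⟨z, hroot⟩ := IsAlgClosed.exists_root (P.map (algebraMap ℝ ℂ)) hdeg
      rw [IsRoot.def, eval_map_algebraMap] at hroot
      have him := hz z hroot
      obtain ⟨r, rfl⟩ : ∃ r : ℝ, (r : ℂ) = z := ⟨z.re, Complex.ext rfl (by simp [him])⟩
      have hr : P.eval r = 0 := by
        have h1 : aeval ((algebraMap ℝ ℂ) r) P = (algebraMap ℝ ℂ) (P.eval r) := by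
          rw [aeval_algebraMap_apply, coe_aeval_eq_eval]
        have h2 : (algebraMap ℝ ℂ) (P.eval r) = 0 := by
          rw [← h1]
          exact hroot
        simpa using h2
      obtain ⟨Q, rfl⟩ := dvd_iff_isRoot.mpr hr
      have hQ0 : Q ≠ 0 := by
        rintro rfl
        simp at h0
      have hQd : Q.natDegree ≤ n := by
        rw [natDegree_mul (X_sub_C_ne_zero r) hQ0, natDegree_X_sub_C] at hP
        omega
      have hQz : ∀ z : ℂ, aeval z Q = 0 → z.im = 0 := by
        intro z hzQ
        apply hz z
        rw [map_mul, hzQ, mul_zero]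
      have key := ih Q hQd hQz hQ0 x
      simp only [derivative_mul, derivative_sub, derivative_X, derivative_C, derivative_add,
        derivative_one, sub_zero, one_mul, zero_mul, zero_add, eval_add, eval_mul, eval_sub,
        eval_X, eval_C]
      nlinarith [mul_nonneg (sq_nonneg (x - r)) (sub_nonneg.mpr key), sq_nonneg (Q.eval x)]

end Pool.Agent.W233.SG
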