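import Pool.Agent.W233.SG4

set_option autoImplicit false

/-! A sign-graded labelled poset on 28 elements. -/

namespace Pool.Agent.W233.SG

open Polynomial

/-- The strict down-sets of the poset, 32 bits for each label. -/
def big : ℕ := 515912505179137609654687211511048386754204817789020366973248124687191984588351240551167914067551691413126954543914721134806178732176878408301150747715077507453313489473628890884447032380832733759746413150347488632151820003329648727130120878339900118699850886178406400

/-- The coefficients of the descent polynomial. -/
def coef : List ℕ := [0, 0, 0, 145, 34916, 3049199, 123684358, 2514013055, 28237002474, 189851728968, 804078610150, 2212348694768, 4030310489286, 4916065833362, 4030310489286, 2212348694768, 804078610150, 189851728968, 28237002474, 2514013055, 123684358, 3049199, 34916, 145]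

set_option maxRecDepth 100000 in
theorem run_eq : leq (ttotal (tsteps big 28 28 (T.node T.leaf 0 0 [1] T.leaf)) []) coef = true := by
  decide +kernel

end Pool.Agent.W233.SG
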