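import Pool.Agent.W233.SG2

set_option autoImplicit false

/-! A quicker tabulation, with search trees. -/

namespace Pool.Agent.W233.SG

open Polynomial

/-- The strict down-set of `x`, read off 32 bits of a number. -/
def prdk (big x : ℕ) : ℕ := Nat.land (Nat.shiftRight big (Nat.mul 32 x)) 4294967295

/-- Quick version of `allowed`. -/
def allowedK (big I x : ℕ) : Bool :=
  cond (Nat.beq (Nat.land 1 (Nat.shiftRight I x)) 0)
    (Nat.beq (Nat.land (prdk big x) I) (prdk big x)) false

theorem beq_eq' (a b : ℕ) : Nat.beq a b = (a == b) := by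
  rw [Bool.eq_iff_iff, beq_iff_eq]
  exact ⟨Nat.eq_of_beq_eq_true, fun h => h ▸ Nat.beq_refl a⟩

theorem allowedK_eq (big I x : ℕ) : allowedK big I x = allowed (prdk big) I x := by
  unfold allowedK allowed
  rw [beq_eq', beq_eq']
  have h1 : ((Nat.land 1 (Nat.shiftRight I x)) == 0) = !(I.testBit x) := by
    unfold Nat.testBit
    rw [bne, Bool.not_not]
    rfl
  rw [h1]
  cases (!(I.testBit x)) <;> rfl

/-- Search trees of states with coefficient lists. -/
inductive T : Type
  | leaf : T
  | node : T → ℕ → ℕ → List ℕ → T → T

/-- The value of a tree. -/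
noncomputable def tval (pred : ℕ → ℕ) (p n : ℕ) : T → ℝ[X]
  | T.leaf => 0
  | T.node l k _ q r => tval pred p n l + toPoly q * W pred p n (k / 32, k % 32) + tval pred p n r

/-- Insertion; `s` is a scrambled form of the key `k` used for the search only. -/
def tins (k s : ℕ) (q : List ℕ) : T → T
  | T.leaf => T.node T.leaf k s q T.leaf
  | T.node l k' s' q' r => cond (Nat.beq k k') (T.node l k' s' (ladd q q') r)
      (cond (Nat.ble s s') (T.node (tins k s q l) k' s' q' r) (T.node l k' s' q' (tins k s q r)))

theorem tval_tins (pred : ℕ → ℕ) (p n k s : ℕ) (q : List ℕ) : ∀ t : T,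
    tval pred p n (tins k s q t) = toPoly q * W pred p n (k / 32, k % 32) + tval pred p n t
  | T.leaf => by simp [tins, tval]
  | T.node l k' s' q' r => by
    unfold tins
    cases hb : Nat.beq k k' with
    | true =>
      have hk : k = k' := Nat.eq_of_beq_eq_true hb
      subst hk
      simp only [cond_true, tval, toPoly_ladd]
      ring
    | false =>
      cases Nat.ble s s' with
      | true =>
        simp only [cond_true, cond_false, tval, tval_tins pred p n k s q l]
        ring
      | false =>
        simp only [cond_false, tval, tval_tins pred p n k s q r]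
        ring

/-- Emitting the successors of a state. -/
def temit (big k : ℕ) (q : List ℕ) : ℕ → T → T
  | 0, t => t
  | m + 1, t => temit big k q m
      (cond (allowedK big (Nat.div k 32) m)
        ((fun k' => tins k' (Nat.mod (Nat.mul k' 2654435761) 4294967296)
            (cond (Nat.ble (Nat.succ m) (Nat.mod k 32)) (0 :: q) q) t)
          (Nat.add (Nat.mul (Nat.lor (Nat.div k 32) (Nat.shiftLeft 1 m)) 32) m)) t)

theorem tval_temit (big p n k : ℕ) (q : List ℕ) : ∀ (m : ℕ) (_ : m ≤ 32) (t : T),
    tval (prdk big) p n (temit big k q m t) = toPoly q * (∑ x ∈ Finset.range m,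
      if allowed (prdk big) (k / 32) x = true then
        (if x < k % 32 then X else 1) * W (prdk big) p n (upd (k / 32) x, x) else 0) +
      tval (prdk big) p n t
  | 0, _, t => by simp [temit]
  | m + 1, hm, t => by
    rw [temit, tval_temit big p n k q m (by omega), Finset.sum_range_succ]
    rw [allowedK_eq]
    have e1 : Nat.div k 32 = k / 32 := rfl
    have e2 : Nat.mod k 32 = k % 32 := rfl
    rw [e1, e2]
    cases ha : allowed (prdk big) (k / 32) m with
    | true =>
      simp only [cond_true, if_true, tval_tins]
      have e3 : Nat.add (Nat.mul (Nat.lor (k / 32) (Nat.shiftLeft 1 m)) 32) m =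
          upd (k / 32) m * 32 + m := rfl
      rw [e3]
      have e4 : (upd (k / 32) m * 32 + m) / 32 = upd (k / 32) m := by omega
      have e5 : (upd (k / 32) m * 32 + m) % 32 = m := by omega
      rw [e4, e5]
      cases hb : Nat.ble (Nat.succ m) (k % 32) with
      | true =>
        have : m < k % 32 := Nat.le_of_ble_eq_true hb
        simp only [cond_true, this, if_true, toPoly, Nat.cast_zero, C_0]
        ring
      | false =>
        have : ¬ m < k % 32 := by
          intro h
          have h' := Nat.ble_eq_true_of_le (Nat.succ_le_of_lt h)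
          rw [h'] at hb
          exact Bool.noConfusion hb
        simp only [cond_false, this, if_false]
        ring
    | false =>
      simp

/-- One step. -/
def tstep (big p : ℕ) : T → T → T
  | T.leaf, acc => acc
  | T.node l k _ q r, acc => tstep big p r (temit big k q p (tstep big p l acc))

theorem tval_tstep (big p n : ℕ) (hp : p ≤ 32) : ∀ (t acc : T),
    tval (prdk big) p n (tstep big p t acc) =
      tval (prdk big) p (n + 1) t + tval (prdk big) p n acc
  | T.leaf, acc => by simp [tstep, tval]
  | T.node l k _ q r, acc => by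
    rw [tstep, tval_tstep big p n hp r, tval_temit big p n k q p hp, tval_tstep big p n hp l, tval, W]
    ring

/-- Several steps. -/
def tsteps (big p : ℕ) : ℕ → T → T
  | 0, t => t
  | n + 1, t => tsteps big p n (tstep big p t T.leaf)

theorem tval_tsteps (big p : ℕ) (hp : p ≤ 32) : ∀ (n : ℕ) (t : T),
    tval (prdk big) p 0 (tsteps big p n t) = tval (prdk big) p n t
  | 0, t => rfl
  | n + 1, t => by
    rw [tsteps, tval_tsteps big p hp n, tval_tstep big p n hp]
    simp [tval]

/-- Sum of all the lists in a tree. -/
def ttotal : T → List ℕ → List ℕ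
  | T.leaf, acc => acc
  | T.node l _ _ q r, acc => ttotal r (ladd q (ttotal l acc))

theorem toPoly_ttotal (pred : ℕ → ℕ) (p : ℕ) : ∀ (t : T) (acc : List ℕ),
    toPoly (ttotal t acc) = tval pred p 0 t + toPoly acc
  | T.leaf, acc => by simp [ttotal, tval]
  | T.node l k _ q r, acc => by
    rw [ttotal, toPoly_ttotal pred p r, toPoly_ladd, toPoly_ttotal pred p l, tval, W, mul_one]
    ring

theorem W_eq' (big p : ℕ) (hp : p ≤ 32) :
    W (prdk big) p p (0, 0) =
      toPoly (ttotal (tsteps big p p (T.node T.leaf 0 0 [1] T.leaf)) []) := by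
  rw [toPoly_ttotal (prdk big) p, tval_tsteps big p hp]
  simp [tval, toPoly]

/-- Boolean equality of lists of numbers. -/
def leq : List ℕ → List ℕ → Bool
  | [], [] => true
  | a :: l, b :: m => cond (Nat.beq a b) (leq l m) false
  | _, _ => false

theorem eq_of_leq : ∀ l m : List ℕ, leq l m = true → l = m
  | [], [], _ => rfl
  | [], _ :: _, h => by simp [leq] at h
  | _ :: _, [], h => by simp [leq] at h
  | a :: l, b :: m, h => by
    unfold leq at h
    cases hb : Nat.beq a b with
    | true =>
      rw [hb] at h
      rw [Nat.eq_of_beq_eq_true hb, eq_of_leq l m h]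
    | false =>
      rw [hb] at h
      exact Bool.noConfusion h

end Pool.Agent.W233.SG
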